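import Pool.Agent.H75.UB.Dya
import Pool.Agent.H75.MT.Construct

set_option autoImplicit false
set_option linter.unusedSectionVars false

/-! Real trigonometric polynomials with flat coefficients on a hyperbolic layer and small integral
norms. -/

open Finset ComplexConjugate MeasureTheory UnitAddTorus

namespace Pool.Agent.H73.KH

open Pool.Agent.H75.MT (ee ee_add ee_norm ee_conj ee_int ee_zero kap kap_nonneg kap_le_one
  kap_eq_one kap_sum cr cr_neg)
open Pool.Agent.H75.UB (TT co co_tp tp tp_apply tp_sq mF_coe exists_real ex ee_prod' Sl mem_Sl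
  Sl_card cint rint)

noncomputable section

local instance : MeasureSpace UnitAddCircle := ⟨AddCircle.haarAddCircle⟩

local instance : Measure.IsAddHaarMeasure (volume : Measure UnitAddCircle) :=
  inferInstanceAs (Measure.IsAddHaarMeasure AddCircle.haarAddCircle)

local instance : IsProbabilityMeasure (volume : Measure UnitAddCircle) :=
  inferInstanceAs (IsProbabilityMeasure AddCircle.haarAddCircle)

variable {d : ℕ}

/-- symmetric union -/
def sy (S : Finset ℤ) : Finset ℤ := S ∪ S.image Neg.neg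

lemma mem_sy {S : Finset ℤ} {k : ℤ} : k ∈ sy S ↔ k ∈ S ∨ -k ∈ S := by
  unfold sy
  rw [mem_union, mem_image]
  constructor
  · rintro (h | ⟨a, ha, rfl⟩)
    · exact Or.inl h
    · right
      simpa using ha
  · rintro (h | h)
    · exact Or.inl h
    · exact Or.inr ⟨-k, h, by simp⟩

/-- the one-dimensional band -/
def B1 (j : ℕ) : Finset ℤ := sy (Finset.Ico ((8 : ℤ) ^ j) (5 * 8 ^ j))

/-- the one-dimensional core -/
def C1 (j : ℕ) : Finset ℤ := sy (Finset.Ico (2 * (8 : ℤ) ^ j) (4 * 8 ^ j))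

lemma mem_B1 {j : ℕ} {k : ℤ} : k ∈ B1 j ↔ (8 : ℤ) ^ j ≤ |k| ∧ |k| < 5 * 8 ^ j := by
  have h8 : (0 : ℤ) < 8 ^ j := by positivity
  unfold B1
  rw [mem_sy, mem_Ico, mem_Ico]
  rcases le_total 0 k with h | h
  · rw [abs_of_nonneg h]
    constructor
    · rintro (h1 | h1)
      · exact h1
      · exfalso
        linarith [h1.1]
    · exact Or.inl
  · rw [abs_of_nonpos h]
    constructor
    · rintro (h1 | h1)
      · exfalso
        linarith [h1.1]
      · exact h1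
    · exact Or.inr

lemma mem_C1 {j : ℕ} {k : ℤ} : k ∈ C1 j ↔ 2 * (8 : ℤ) ^ j ≤ |k| ∧ |k| < 4 * 8 ^ j := by
  have h8 : (0 : ℤ) < 8 ^ j := by positivity
  unfold C1
  rw [mem_sy, mem_Ico, mem_Ico]
  rcases le_total 0 k with h | h
  · rw [abs_of_nonneg h]
    constructor
    · rintro (h1 | h1)
      · exact h1
      · exfalso
        linarith [h1.1]
    · exact Or.inl
  · rw [abs_of_nonpos h]
    constructor
    · rintro (h1 | h1)
      · exfalso
        linarith [h1.1]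
      · exact h1
    · exact Or.inr

lemma C1_sub (j : ℕ) : C1 j ⊆ B1 j := by
  intro k hk
  have h8 : (0 : ℤ) < 8 ^ j := by positivity
  rw [mem_C1] at hk
  rw [mem_B1]
  constructor <;> linarith [hk.1, hk.2]

lemma B1_card (j : ℕ) : #(B1 j) ≤ 8 * 8 ^ j := by
  unfold B1 sy
  refine (Finset.card_union_le _ _).trans ?_
  have h1 : #(Finset.Ico ((8 : ℤ) ^ j) (5 * 8 ^ j)) = 4 * 8 ^ j := by
    rw [Int.card_Ico]
    have : (5 * (8 : ℤ) ^ j - 8 ^ j) = ((4 * 8 ^ j : ℕ) : ℤ) := by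
      push_cast
      ring
    rw [this, Int.toNat_natCast]
  have h2 : #((Finset.Ico ((8 : ℤ) ^ j) (5 * 8 ^ j)).image Neg.neg) ≤ 4 * 8 ^ j :=
    Finset.card_image_le.trans h1.le
  omega

lemma C1_card (j : ℕ) : #(C1 j) = 4 * 8 ^ j := by
  have h8 : (0 : ℤ) < 8 ^ j := by positivity
  unfold C1 sy
  rw [Finset.card_union_of_disjoint, Finset.card_image_of_injective _ neg_injective]
  · have h1 : #(Finset.Ico (2 * (8 : ℤ) ^ j) (4 * 8 ^ j)) = 2 * 8 ^ j := by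
      rw [Int.card_Ico]
      have : (4 * (8 : ℤ) ^ j - 2 * 8 ^ j) = ((2 * 8 ^ j : ℕ) : ℤ) := by
        push_cast
        ring
      rw [this, Int.toNat_natCast]
    rw [h1]
    ring
  · rw [Finset.disjoint_left]
    intro k hk hk'
    rw [mem_image] at hk'
    obtain ⟨a, ha, rfl⟩ := hk'
    rw [mem_Ico] at hk ha
    linarith [hk.1, ha.1]

/-- the dyadic (base 8) index -/
def jx (k : ℤ) : ℕ := Nat.log 8 k.natAbs

lemma jx_B1 {j : ℕ} {k : ℤ} (hk : k ∈ B1 j) : jx k = j := by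
  rw [mem_B1] at hk
  unfold jx
  have h1 : 8 ^ j ≤ k.natAbs := by
    have := hk.1
    rw [← Int.natCast_natAbs] at this
    exact_mod_cast this
  have h2 : k.natAbs < 5 * 8 ^ j := by
    have := hk.2
    rw [← Int.natCast_natAbs] at this
    exact_mod_cast this
  refine Nat.log_eq_of_pow_le_of_lt_pow h1 ?_
  rw [pow_succ]
  omega

/-- the one-dimensional coefficient -/
def gc (k : ℤ) : ℝ := kap (8 ^ jx k) |k|

lemma gc_nonneg (k : ℤ) : 0 ≤ gc k := kap_nonneg _ _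

lemma gc_le_one (k : ℤ) : gc k ≤ 1 := kap_le_one _ _

lemma gc_neg (k : ℤ) : gc (-k) = gc k := by
  unfold gc jx
  rw [abs_neg, Int.natAbs_neg]

lemma gc_core {j : ℕ} {k : ℤ} (hk : k ∈ C1 j) : gc k = 1 := by
  unfold gc
  rw [jx_B1 (C1_sub j hk)]
  rw [mem_C1] at hk
  refine kap_eq_one _ (by positivity) _ ?_ ?_
  · push_cast
    exact hk.1
  · push_cast
    exact hk.2

/-- the one-dimensional polynomial -/
lemma one_dim (j : ℕ) (t : ℝ) : ‖∑ k ∈ B1 j, (gc k : ℂ) * ee (k * t)‖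
    ≤ 2 / 8 ^ j * (‖∑ b ∈ Finset.Ico (0 : ℤ) (8 ^ j), ee (b * t)‖
      * ‖∑ b ∈ Finset.Ico ((8 : ℤ) ^ j) (4 * 8 ^ j), ee (b * t)‖) := by
  have h8 : (0 : ℤ) < 8 ^ j := by positivity
  have hdis : Disjoint (Finset.Ico ((8 : ℤ) ^ j) (5 * 8 ^ j))
      ((Finset.Ico ((8 : ℤ) ^ j) (5 * 8 ^ j)).image Neg.neg) := by
    rw [Finset.disjoint_left]
    intro k hk hk'
    rw [mem_image] at hk'
    obtain ⟨a, ha, rfl⟩ := hk'
    rw [mem_Ico] at hk ha
    linarith [hk.1, ha.1]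
  set K := ∑ k ∈ Finset.Ico ((8 : ℤ) ^ j) (5 * 8 ^ j), (gc k : ℂ) * ee (k * t) with hK
  have h1 : ∑ k ∈ B1 j, (gc k : ℂ) * ee (k * t) = K + conj K := by
    unfold B1 sy
    rw [Finset.sum_union hdis, Finset.sum_image (fun a _ b _ h => neg_injective h), hK, map_sum]
    congr 1
    refine Finset.sum_congr rfl (fun k _ => ?_)
    rw [map_mul, ee_conj, Complex.conj_ofReal, gc_neg]
    congr 2
    push_cast
    ring
  have h2 : K = (1 / ((8 ^ j : ℕ) : ℂ)) * ((∑ b ∈ Finset.Ico (0 : ℤ) ((8 ^ j : ℕ) : ℤ), ee (b * t))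
        * ∑ b ∈ Finset.Ico (((8 ^ j : ℕ) : ℤ)) (4 * ((8 ^ j : ℕ) : ℤ)), ee (b * t)) := by
    rw [← kap_sum (8 ^ j) (by positivity) t, hK]
    push_cast
    refine Finset.sum_congr rfl (fun k hk => ?_)
    have h3 : k ∈ B1 j := by
      unfold B1
      rw [mem_sy]
      exact Or.inl hk
    unfold gc
    rw [jx_B1 h3]
    rw [mem_Ico] at hk
    rw [abs_of_nonneg (by linarith [hk.1])]
  have h3 : ‖K‖ = 1 / 8 ^ j * (‖∑ b ∈ Finset.Ico (0 : ℤ) (8 ^ j), ee (b * t)‖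
      * ‖∑ b ∈ Finset.Ico ((8 : ℤ) ^ j) (4 * 8 ^ j), ee (b * t)‖) := by
    rw [h2, norm_mul, norm_mul]
    push_cast
    congr 1
    simp
  rw [h1]
  refine (norm_add_le _ _).trans ?_
  rw [RCLike.norm_conj, h3]
  refine le_of_eq ?_
  ring

/-- the block in dimension `d` -/
def Sd (s : Fin d → ℕ) : Finset (Fin d → ℤ) := Fintype.piFinset (fun i => B1 (s i))

/-- the core in dimension `d` -/
def Cd (s : Fin d → ℕ) : Finset (Fin d → ℤ) := Fintype.piFinset (fun i => C1 (s i))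

/-- the coefficient -/
def cc (k : Fin d → ℤ) : ℂ := ((∏ i, gc (k i) : ℝ) : ℂ)

lemma cc_norm (k : Fin d → ℤ) : ‖cc k‖ ≤ 1 := by
  unfold cc
  rw [Complex.norm_real, Real.norm_eq_abs, abs_of_nonneg (Finset.prod_nonneg (fun i _ => gc_nonneg _))]
  exact Finset.prod_le_one (fun i _ => gc_nonneg _) (fun i _ => gc_le_one _)

lemma cc_neg (k : Fin d → ℤ) : cc (-k) = conj (cc k) := by
  unfold cc
  rw [Complex.conj_ofReal]
  congr 2
  funext i
  rw [Pi.neg_apply, gc_neg]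

lemma cc_core {s : Fin d → ℕ} {k : Fin d → ℤ} (hk : k ∈ Cd s) : cc k = 1 := by
  unfold Cd at hk
  rw [Fintype.mem_piFinset] at hk
  unfold cc
  rw [Finset.prod_eq_one (fun i _ => gc_core (hk i))]
  simp

lemma tp_prod (f : Fin d → ℤ → ℂ) (S : Fin d → Finset ℤ) (x : Fin d → ℝ) :
    tp (Fintype.piFinset S) (fun k => ∏ i, f i (k i)) (fun i => (x i : UnitAddCircle))
      = ∏ i, ∑ k ∈ S i, f i k * ee (k * x i) := by
  rw [tp_apply, Finset.prod_univ_sum]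
  refine Finset.sum_congr rfl (fun k _ => ?_)
  rw [mF_coe]
  unfold ex
  rw [ee_prod', ← Finset.prod_mul_distrib]

/-- the integral of the modulus of a block -/
lemma block_l1 (s : Fin d → ℕ) : ∫ x, ‖tp (Sd s) (cc : (Fin d → ℤ) → ℂ) x‖ ≤ 4 ^ d := by
  set A : C(TT d, ℂ) := tp (Fintype.piFinset (fun i => Finset.Ico (0 : ℤ) (8 ^ (s i))))
    (fun k => ∏ i : Fin d, (fun _ _ => (1 : ℂ)) i (k i)) with hA
  set B : C(TT d, ℂ) := tp (Fintype.piFinset (fun i => Finset.Ico ((8 : ℤ) ^ (s i)) (4 * 8 ^ (s i))))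
    (fun k => ∏ i : Fin d, (fun _ _ => (1 : ℂ)) i (k i)) with hB
  set N : ℝ := ∏ i, (8 : ℝ) ^ (s i) with hN
  have hN0 : 0 < N := Finset.prod_pos (fun i _ => by positivity)
  have hpt : ∀ x : TT d, ‖tp (Sd s) (cc : (Fin d → ℤ) → ℂ) x‖
      ≤ 2 ^ d / N * ((2 ^ d * ‖A x‖ ^ 2 + ‖B x‖ ^ 2 / 2 ^ d) / 2) := by
    intro y
    obtain ⟨x, rfl⟩ := exists_real y
    have h1 : (cc : (Fin d → ℤ) → ℂ) = fun k => ∏ i, (fun _ (k : ℤ) => ((gc k : ℝ) : ℂ)) i (k i) := by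
      funext k
      unfold cc
      push_cast
      rfl
    rw [h1, hA, hB]
    unfold Sd
    have t1 := tp_prod (fun _ (k : ℤ) => ((gc k : ℝ) : ℂ)) (fun i => B1 (s i)) x
    have t2 := tp_prod (fun _ (_ : ℤ) => (1 : ℂ)) (fun i => Finset.Ico (0 : ℤ) (8 ^ (s i))) x
    have t3 := tp_prod (fun _ (_ : ℤ) => (1 : ℂ))
      (fun i => Finset.Ico ((8 : ℤ) ^ (s i)) (4 * 8 ^ (s i))) x
    rw [t1, t2, t3, norm_prod, norm_prod, norm_prod]
    simp only [one_mul]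
    have h2 : ∏ i, ‖∑ k ∈ B1 (s i), ((gc k : ℝ) : ℂ) * ee (k * x i)‖
        ≤ ∏ i, (2 / 8 ^ (s i) * (‖∑ b ∈ Finset.Ico (0 : ℤ) (8 ^ (s i)), ee (b * x i)‖
          * ‖∑ b ∈ Finset.Ico ((8 : ℤ) ^ (s i)) (4 * 8 ^ (s i)), ee (b * x i)‖)) :=
      Finset.prod_le_prod (fun i _ => norm_nonneg _) (fun i _ => one_dim (s i) (x i))
    refine h2.trans ?_
    rw [Finset.prod_mul_distrib, Finset.prod_mul_distrib, Finset.prod_div_distrib,
      Finset.prod_const, Finset.card_univ, Fintype.card_fin]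
    refine mul_le_mul_of_nonneg_left ?_ (by positivity)
    set a := ∏ i, ‖∑ b ∈ Finset.Ico (0 : ℤ) (8 ^ (s i)), ee (b * x i)‖
    set b := ∏ i, ‖∑ b ∈ Finset.Ico ((8 : ℤ) ^ (s i)) (4 * 8 ^ (s i)), ee (b * x i)‖
    have h3 : (0 : ℝ) < 2 ^ d := by positivity
    have h4 : 2 ^ d * a ^ 2 + b ^ 2 / 2 ^ d - 2 * (a * b) = (2 ^ d * a - b) ^ 2 / 2 ^ d := by
      field_simp
      ring
    have h5 : 0 ≤ (2 ^ d * a - b) ^ 2 / 2 ^ d := by positivity
    linarith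
  have hint : Integrable (fun x : TT d => 2 ^ d / N * ((2 ^ d * ‖A x‖ ^ 2 + ‖B x‖ ^ 2 / 2 ^ d) / 2))
      volume := rint _ (by fun_prop)
  have h1 : ∫ x, ‖tp (Sd s) (cc : (Fin d → ℤ) → ℂ) x‖
      ≤ ∫ x, 2 ^ d / N * ((2 ^ d * ‖A x‖ ^ 2 + ‖B x‖ ^ 2 / 2 ^ d) / 2) :=
    integral_mono (rint _ (by fun_prop)) hint hpt
  refine h1.trans ?_
  have hA2 : ∫ x, ‖A x‖ ^ 2 = N := by
    rw [hA, tp_sq]
    simp only [Finset.prod_const_one, norm_one, one_pow, Finset.sum_const, nsmul_eq_mul, mul_one]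
    rw [Fintype.card_piFinset]
    push_cast
    rw [hN]
    refine Finset.prod_congr rfl (fun i _ => ?_)
    rw [Int.card_Ico]
    have : ((8 : ℤ) ^ (s i) - 0) = ((8 ^ (s i) : ℕ) : ℤ) := by
      push_cast
      ring
    rw [this, Int.toNat_natCast]
    push_cast
    rfl
  have hB2 : ∫ x, ‖B x‖ ^ 2 = 3 ^ d * N := by
    rw [hB, tp_sq]
    simp only [Finset.prod_const_one, norm_one, one_pow, Finset.sum_const, nsmul_eq_mul, mul_one]
    rw [Fintype.card_piFinset]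
    push_cast
    rw [hN]
    have : (3 : ℝ) ^ d = ∏ _i : Fin d, (3 : ℝ) := by simp
    rw [this, ← Finset.prod_mul_distrib]
    refine Finset.prod_congr rfl (fun i _ => ?_)
    rw [Int.card_Ico]
    have : (4 * (8 : ℤ) ^ (s i) - 8 ^ (s i)) = ((3 * 8 ^ (s i) : ℕ) : ℤ) := by
      push_cast
      ring
    rw [this, Int.toNat_natCast]
    push_cast
    rfl
  have h2 : ∫ x, 2 ^ d / N * ((2 ^ d * ‖A x‖ ^ 2 + ‖B x‖ ^ 2 / 2 ^ d) / 2)
      = 2 ^ d / N * ((2 ^ d * N + 3 ^ d * N / 2 ^ d) / 2) := by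
    rw [integral_const_mul, integral_div, integral_add, integral_const_mul, integral_div, hA2, hB2]
    · exact rint _ (by fun_prop)
    · exact rint _ (by fun_prop)
  rw [h2]
  have h3 : (3 : ℝ) ^ d ≤ 2 ^ d * 2 ^ d := by
    rw [← mul_pow]
    exact pow_le_pow_left₀ (by norm_num) (by norm_num) d
  have h4 : (3 : ℝ) ^ d * N / 2 ^ d ≤ 2 ^ d * N := by
    rw [div_le_iff₀ (by positivity)]
    nlinarith
  calc (2 : ℝ) ^ d / N * ((2 ^ d * N + 3 ^ d * N / 2 ^ d) / 2)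
      ≤ 2 ^ d / N * ((2 ^ d * N + 2 ^ d * N) / 2) := by gcongr
    _ = (2 * 2) ^ d := by
        rw [mul_pow]
        field_simp
        ring
    _ = 4 ^ d := by norm_num

end

end Pool.Agent.H73.KH
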