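import Pool.Agent.H73.KH.Flat
import Pool.Agent.H75.MX.Phi

set_option autoImplicit false
set_option linter.unusedSectionVars false

/-! The layer polynomial, its norms, and the lower bound by the energy. -/

open Finset ComplexConjugate MeasureTheory UnitAddTorus

namespace Pool.Agent.H73.KH

open Pool.Agent.H75.MT (ee ee_add ee_norm ee_conj ee_int ee_zero cr cr_neg)
open Pool.Agent.H75.UB (TT co co_tp tp tp_apply tp_sq mF_coe exists_real ex ee_prod' Sl mem_Sl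
  Sl_card cint rint co_smul)

noncomputable section

local instance : MeasureSpace UnitAddCircle := ⟨AddCircle.haarAddCircle⟩

local instance : Measure.IsAddHaarMeasure (volume : Measure UnitAddCircle) :=
  inferInstanceAs (Measure.IsAddHaarMeasure AddCircle.haarAddCircle)

local instance : IsProbabilityMeasure (volume : Measure UnitAddCircle) :=
  inferInstanceAs (IsProbabilityMeasure AddCircle.haarAddCircle)

variable {d : ℕ}

lemma mem_Sd {s : Fin d → ℕ} {k : Fin d → ℤ} : k ∈ Sd s ↔ ∀ i, k i ∈ B1 (s i) := by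
  unfold Sd
  rw [Fintype.mem_piFinset]

lemma mem_Cd {s : Fin d → ℕ} {k : Fin d → ℤ} : k ∈ Cd s ↔ ∀ i, k i ∈ C1 (s i) := by
  unfold Cd
  rw [Fintype.mem_piFinset]

lemma Sd_index {s : Fin d → ℕ} {k : Fin d → ℤ} (hk : k ∈ Sd s) : s = fun i => jx (k i) := by
  rw [mem_Sd] at hk
  funext i
  exact (jx_B1 (hk i)).symm

lemma Cd_sub (s : Fin d → ℕ) : Cd s ⊆ Sd s := by
  intro k hk
  rw [mem_Cd] at hk
  rw [mem_Sd]
  exact fun i => C1_sub _ (hk i)

/-- the frequencies of the layer -/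
def Ul (d n : ℕ) : Finset (Fin d → ℤ) := (Sl d n).biUnion Sd

/-- the core of the layer -/
def Cl (d n : ℕ) : Finset (Fin d → ℤ) := (Sl d n).biUnion Cd

lemma Sd_disj (n : ℕ) : Set.PairwiseDisjoint (↑(Sl d n) : Set (Fin d → ℕ)) Sd := by
  intro s _ t _ hst
  rw [Function.onFun, Finset.disjoint_left]
  intro k hk hk'
  exact hst ((Sd_index hk).trans (Sd_index hk').symm)

lemma Cd_disj (n : ℕ) : Set.PairwiseDisjoint (↑(Sl d n) : Set (Fin d → ℕ)) Cd := by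
  intro s hs t ht hst
  exact Finset.disjoint_of_subset_left (Cd_sub s)
    (Finset.disjoint_of_subset_right (Cd_sub t) (Sd_disj n hs ht hst))

lemma Sd_card (s : Fin d → ℕ) : #(Sd s) ≤ 8 ^ d * 8 ^ (∑ i, s i) := by
  unfold Sd
  rw [Fintype.card_piFinset]
  calc ∏ i, #(B1 (s i)) ≤ ∏ i : Fin d, 8 * 8 ^ (s i) := Finset.prod_le_prod' (fun i _ => B1_card _)
    _ = _ := by
        rw [Finset.prod_mul_distrib, Finset.prod_const, Finset.card_univ, Fintype.card_fin,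
          Finset.prod_pow_eq_pow_sum]

lemma Cd_card (s : Fin d → ℕ) : #(Cd s) = 4 ^ d * 8 ^ (∑ i, s i) := by
  unfold Cd
  rw [Fintype.card_piFinset]
  calc ∏ i, #(C1 (s i)) = ∏ i : Fin d, 4 * 8 ^ (s i) := Finset.prod_congr rfl (fun i _ => C1_card _)
    _ = _ := by
        rw [Finset.prod_mul_distrib, Finset.prod_const, Finset.card_univ, Fintype.card_fin,
          Finset.prod_pow_eq_pow_sum]

lemma Ul_card (d n : ℕ) : #(Ul d n) ≤ #(Sl d n) * (8 ^ d * 8 ^ n) := by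
  unfold Ul
  refine Finset.card_biUnion_le.trans ?_
  rw [← smul_eq_mul]
  refine Finset.sum_le_card_nsmul _ _ _ (fun s hs => ?_)
  have := Sd_card s
  rwa [mem_Sl.1 hs] at this

lemma Cl_card (d n : ℕ) : #(Cl d n) = #(Sl d n) * (4 ^ d * 8 ^ n) := by
  unfold Cl
  rw [Finset.card_biUnion (fun s hs t ht hst => Cd_disj n hs ht hst)]
  rw [← smul_eq_mul, ← Finset.sum_const]
  refine Finset.sum_congr rfl (fun s hs => ?_)
  rw [Cd_card, mem_Sl.1 hs]

lemma Cl_sub (d n : ℕ) : Cl d n ⊆ Ul d n := by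
  intro k hk
  unfold Cl at hk
  unfold Ul
  rw [mem_biUnion] at hk ⊢
  obtain ⟨s, hs, hk⟩ := hk
  exact ⟨s, hs, Cd_sub s hk⟩

lemma cc_Cl {n : ℕ} {k : Fin d → ℤ} (hk : k ∈ Cl d n) : cc k = 1 := by
  unfold Cl at hk
  rw [mem_biUnion] at hk
  obtain ⟨s, _, hk⟩ := hk
  exact cc_core hk

lemma Ul_neg {n : ℕ} {k : Fin d → ℤ} (hk : k ∈ Ul d n) : -k ∈ Ul d n := by
  unfold Ul at hk ⊢
  rw [mem_biUnion] at hk ⊢
  obtain ⟨s, hs, hk⟩ := hk
  refine ⟨s, hs, ?_⟩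
  rw [mem_Sd] at hk ⊢
  intro i
  have := hk i
  rw [mem_B1] at this ⊢
  rw [Pi.neg_apply, abs_neg]
  exact this

/-- a trigonometric polynomial with symmetric coefficients is real -/
lemma tp_real (S : Finset (Fin d → ℤ)) (c : (Fin d → ℤ) → ℂ) (hS : ∀ k ∈ S, -k ∈ S)
    (hc : ∀ k ∈ S, c (-k) = conj (c k)) (x : TT d) : (tp S c x).im = 0 := by
  have h1 : conj (tp S c x) = tp S c x := by
    rw [tp_apply, map_sum]
    refine Finset.sum_nbij' (fun k => -k) (fun k => -k) (fun k hk => hS k hk)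
      (fun k hk => hS k hk) (fun k _ => neg_neg k) (fun k _ => neg_neg k) (fun k hk => ?_)
    rw [map_mul, hc k hk, mFourier_neg]
  exact Complex.conj_eq_iff_im.1 h1

lemma lay_l1 (d n : ℕ) : ∫ x, ‖tp (Ul d n) cc x‖ ≤ #(Sl d n) * 4 ^ d := by
  have h1 : ∀ x, tp (Ul d n) cc x = ∑ s ∈ Sl d n, tp (Sd s) cc x := by
    intro x
    unfold Ul
    rw [tp_apply, Finset.sum_biUnion (Sd_disj n)]
    exact Finset.sum_congr rfl (fun s _ => (tp_apply _ _ _).symm)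
  have h2 : ∫ x, ‖tp (Ul d n) cc x‖ ≤ ∫ x, ∑ s ∈ Sl d n, ‖tp (Sd s) cc x‖ := by
    refine integral_mono (rint _ (by fun_prop)) (rint _ (by fun_prop)) (fun x => ?_)
    show ‖tp (Ul d n) cc x‖ ≤ ∑ s ∈ Sl d n, ‖tp (Sd s) cc x‖
    rw [h1]
    exact norm_sum_le _ _
  refine h2.trans ?_
  rw [integral_finsetSum _ (fun s _ => rint _ (by fun_prop))]
  rw [← nsmul_eq_mul]
  exact Finset.sum_le_card_nsmul _ _ _ (fun s _ => block_l1 s)

lemma lay_l2 (d n : ℕ) : ∫ x, ‖tp (Ul d n) cc x‖ ^ 2 ≤ #(Sl d n) * (8 ^ d * 8 ^ n) := by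
  rw [tp_sq]
  have h1 : ∑ k ∈ Ul d n, ‖(cc k : ℂ)‖ ^ 2 ≤ ∑ _k ∈ Ul d n, (1 : ℝ) :=
    Finset.sum_le_sum (fun k _ => pow_le_one₀ (norm_nonneg _) (cc_norm k))
  refine h1.trans ?_
  rw [Finset.sum_const, nsmul_eq_mul, mul_one]
  exact_mod_cast Ul_card d n

/-- interpolation between the first and the second power -/
lemma rpow_interp (t A p : ℝ) (ht : 0 ≤ t) (hA : 0 < A) (hp1 : 1 ≤ p) (hp2 : p ≤ 2) :
    t ^ p ≤ A ^ (p - 1) * t + A ^ (p - 2) * t ^ 2 := by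
  rcases ht.eq_or_lt with h0 | h0
  · rw [← h0, Real.zero_rpow (by linarith)]
    simp
  rcases le_total t A with h | h
  · have e1 : t ^ p = t ^ (p - 1) * t := by
      rw [← Real.rpow_add_one h0.ne']
      congr 1
      ring
    have e2 : t ^ (p - 1) ≤ A ^ (p - 1) := Real.rpow_le_rpow ht h (by linarith)
    have e3 : 0 ≤ A ^ (p - 2) * t ^ 2 := by positivity
    rw [e1]
    nlinarith
  · have e1 : t ^ p = t ^ (p - 2) * t ^ 2 := by
      rw [← Real.rpow_natCast t 2, ← Real.rpow_add h0]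
      congr 1
      push_cast
      ring
    have e2 : t ^ (p - 2) ≤ A ^ (p - 2) := Real.rpow_le_rpow_of_nonpos hA h (by linarith)
    have e3 : 0 ≤ A ^ (p - 1) * t := by positivity
    rw [e1]
    have e4 : 0 < t ^ 2 := by positivity
    nlinarith

lemma lay_lp (d n : ℕ) (p : ℝ) (hp1 : 1 ≤ p) (hp2 : p ≤ 2) :
    ∫ x, ‖tp (Ul d n) cc x‖ ^ p ≤ (4 ^ d + 8 ^ d) * (#(Sl d n) * ((8 : ℝ) ^ n) ^ (p - 1)) := by
  have hA : (0 : ℝ) < 8 ^ n := by positivity
  have hcp : Continuous (fun x : TT d => ‖tp (Ul d n) cc x‖ ^ p) :=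
    Continuous.rpow_const (by fun_prop) (fun x => Or.inr (by linarith))
  have h1 : ∫ x, ‖tp (Ul d n) cc x‖ ^ p ≤ ∫ x, (((8 : ℝ) ^ n) ^ (p - 1) * ‖tp (Ul d n) cc x‖
      + ((8 : ℝ) ^ n) ^ (p - 2) * ‖tp (Ul d n) cc x‖ ^ 2) := by
    refine integral_mono (rint _ hcp) (rint _ (by fun_prop)) (fun x => ?_)
    exact rpow_interp _ _ p (norm_nonneg _) hA hp1 hp2
  refine h1.trans ?_
  rw [integral_add (rint _ (by fun_prop)) (rint _ (by fun_prop)), integral_const_mul,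
    integral_const_mul]
  have e1 : ((8 : ℝ) ^ n) ^ (p - 2) * 8 ^ n = ((8 : ℝ) ^ n) ^ (p - 1) := by
    rw [← Real.rpow_add_one hA.ne']
    congr 1
    ring
  have h2 := lay_l1 d n
  have h3 := lay_l2 d n
  calc ((8 : ℝ) ^ n) ^ (p - 1) * (∫ x, ‖tp (Ul d n) cc x‖)
        + ((8 : ℝ) ^ n) ^ (p - 2) * (∫ x, ‖tp (Ul d n) cc x‖ ^ 2)
      ≤ ((8 : ℝ) ^ n) ^ (p - 1) * (#(Sl d n) * 4 ^ d)
        + ((8 : ℝ) ^ n) ^ (p - 2) * (#(Sl d n) * (8 ^ d * 8 ^ n)) := by gcongr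
    _ = ((8 : ℝ) ^ n) ^ (p - 1) * (#(Sl d n) * 4 ^ d)
        + (((8 : ℝ) ^ n) ^ (p - 2) * 8 ^ n) * (#(Sl d n) * 8 ^ d) := by ring
    _ = _ := by
        rw [e1]
        ring

/-- the lower bound by the energy of the frequencies which are not used -/
lemma energy_lower (U V : Finset (Fin d → ℤ)) (hV : V ⊆ U) (a : (Fin d → ℤ) → ℂ) (α : ℝ)
    (hα : 0 ≤ α) (ha : ∀ k ∈ V, α ≤ ‖a k‖) (Lam : Finset (Fin d → ℤ)) (b : (Fin d → ℤ) → ℂ)
    (W : ℝ) (hW : ∀ x : TT d, ‖tp U a x - ∑ k ∈ Lam, b k * mFourier k x‖ ≤ W) :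
    ((#V : ℝ) - #Lam) * α ^ 2 ≤ W ^ 2 := by
  classical
  set e : (Fin d → ℤ) → ℂ := fun k => (if k ∈ U then a k else 0) - (if k ∈ Lam then b k else 0)
    with he
  have h1 : ∀ x : TT d, tp (U ∪ Lam) e x = tp U a x - ∑ k ∈ Lam, b k * mFourier k x := by
    intro x
    rw [tp_apply, tp_apply]
    simp only [he, sub_mul, Finset.sum_sub_distrib, ite_mul, zero_mul]
    congr 1
    · rw [← Finset.sum_filter]
      congr 1
      ext k
      simp only [mem_filter, mem_union]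
      tauto
    · rw [← Finset.sum_filter]
      congr 1
      ext k
      simp only [mem_filter, mem_union]
      tauto
  have hW0 : 0 ≤ W := (norm_nonneg _).trans (hW 0)
  have h2 : ∫ x, ‖tp (U ∪ Lam) e x‖ ^ 2 ≤ W ^ 2 := by
    have h3 : ∫ x, ‖tp (U ∪ Lam) e x‖ ^ 2 ≤ ∫ _x : TT d, W ^ 2 := by
      refine integral_mono (rint _ (by fun_prop)) (integrable_const _) (fun x => ?_)
      show ‖tp (U ∪ Lam) e x‖ ^ 2 ≤ W ^ 2
      rw [h1]
      exact pow_le_pow_left₀ (norm_nonneg _) (hW x) 2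
    simpa using h3
  rw [tp_sq] at h2
  refine le_trans ?_ h2
  have h4 : ∑ k ∈ V \ Lam, ‖e k‖ ^ 2 ≤ ∑ k ∈ U ∪ Lam, ‖e k‖ ^ 2 := by
    refine Finset.sum_le_sum_of_subset_of_nonneg ?_ (fun k _ _ => by positivity)
    intro k hk
    rw [mem_sdiff] at hk
    exact mem_union_left _ (hV hk.1)
  refine le_trans ?_ h4
  have h5 : ∀ k ∈ V \ Lam, α ^ 2 ≤ ‖e k‖ ^ 2 := by
    intro k hk
    rw [mem_sdiff] at hk
    simp only [he]
    rw [if_pos (hV hk.1), if_neg hk.2, sub_zero]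
    exact pow_le_pow_left₀ hα (ha k hk.1) 2
  have h6 := Finset.card_nsmul_le_sum _ _ _ h5
  refine le_trans ?_ h6
  rw [nsmul_eq_mul]
  refine mul_le_mul_of_nonneg_right ?_ (by positivity)
  have h7 : #V ≤ #(V \ Lam) + #Lam := by
    have := Finset.card_le_card_sdiff_add_card (s := V) (t := Lam)
    omega
  have h8 : (#V : ℝ) ≤ #(V \ Lam) + #Lam := by exact_mod_cast h7
  linarith

end

end Pool.Agent.H73.KH
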