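import Pool.Agent.H75.UB.Samp
import Pool.Agent.H75.UB.Full

set_option autoImplicit false
set_option linter.unusedSectionVars false

/-! Sparse approximation of a trigonometric polynomial with few frequencies. -/

open Finset ComplexConjugate

namespace Pool.Agent.H73.KH

open Pool.Agent.H75.UB

noncomputable section

variable {d : ℕ}

section

variable {Q : ℕ}

/-- the number of slots of a position -/
def nu (c : Fin Q → ℂ) (q : Fin Q) : ℕ := ⌈‖c q‖ * Q / ∑ q', ‖c q'‖⌉₊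

/-- the value of a slot -/
def vv (c : Fin Q → ℂ) (q : Fin Q) : ℂ := 2 * Q * c q / nu c q

lemma nu_sum (c : Fin Q → ℂ) : ∑ q, nu c q ≤ 2 * Q := by
  set μ := ∑ q', ‖c q'‖ with hμ
  have hμ0 : 0 ≤ μ := Finset.sum_nonneg (fun _ _ => norm_nonneg _)
  have h1 : ∀ q, ((nu c q : ℕ) : ℝ) ≤ ‖c q‖ * Q / μ + 1 := by
    intro q
    exact (Nat.ceil_lt_add_one (by positivity)).le
  have h2 : ∑ q, ‖c q‖ * Q / μ ≤ Q := by
    rw [← Finset.sum_div, ← Finset.sum_mul, ← hμ]
    rcases hμ0.eq_or_lt with h | h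
    · rw [← h]
      simp
    · rw [mul_comm, mul_div_assoc, div_self h.ne', mul_one]
  have h3 : ((∑ q, nu c q : ℕ) : ℝ) ≤ ((2 * Q : ℕ) : ℝ) := by
    push_cast
    refine (Finset.sum_le_sum (fun q _ => h1 q)).trans ?_
    rw [Finset.sum_add_distrib]
    simp only [Finset.sum_const, Finset.card_univ, Fintype.card_fin, nsmul_eq_mul, mul_one]
    linarith
  exact_mod_cast h3

lemma mass_pos (c : Fin Q → ℂ) (q : Fin Q) (hq : c q ≠ 0) : 0 < ∑ q', ‖c q'‖ :=
  lt_of_lt_of_le (norm_pos_iff.2 hq)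
    (Finset.single_le_sum (f := fun q => ‖c q‖) (fun _ _ => norm_nonneg _) (mem_univ q))

lemma nu_pos (c : Fin Q → ℂ) (q : Fin Q) (hq : c q ≠ 0) : 0 < nu c q := by
  unfold nu
  rw [Nat.ceil_pos]
  have h1 := mass_pos c q hq
  have h2 : (0 : ℝ) < Q := by exact_mod_cast q.pos
  have h3 := norm_pos_iff.2 hq
  positivity

lemma nu_vv (c : Fin Q → ℂ) (q : Fin Q) : (nu c q : ℂ) * vv c q = 2 * Q * c q := by
  unfold vv
  by_cases h : c q = 0
  · rw [h]
    simp
  · have h1 : (nu c q : ℂ) ≠ 0 := by exact_mod_cast (nu_pos c q h).ne'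
    field_simp

lemma vv_norm (c : Fin Q → ℂ) (q : Fin Q) : ‖vv c q‖ ≤ 2 * ∑ q', ‖c q'‖ := by
  by_cases h : c q = 0
  · unfold vv
    rw [h]
    simp only [mul_zero, zero_div, norm_zero]
    have : 0 ≤ ∑ q', ‖c q'‖ := Finset.sum_nonneg (fun _ _ => norm_nonneg _)
    linarith
  · have h1 := mass_pos c q h
    have h2 := nu_pos c q h
    have h2' : (0 : ℝ) < nu c q := by exact_mod_cast h2
    have h3 : ‖c q‖ * Q / ∑ q', ‖c q'‖ ≤ nu c q := Nat.le_ceil _
    unfold vv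
    rw [norm_div, norm_mul, norm_mul, Complex.norm_natCast, Complex.norm_natCast,
      Complex.norm_ofNat, div_le_iff₀ h2']
    rw [div_le_iff₀ h1] at h3
    nlinarith

/-- the slots of a cell -/
lemma slots (c : Fin Q → ℂ) : Nonempty (Fin (2 * Q) ≃
    (Σ q : Fin Q, Fin (nu c q)) ⊕ Fin (2 * Q - ∑ q, nu c q)) := by
  refine ⟨Fintype.equivOfCardEq ?_⟩
  rw [Fintype.card_sum, Fintype.card_sigma]
  simp only [Fintype.card_fin]
  have := nu_sum c
  omega

/-- the coefficient of an option -/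
def oc (c : Fin Q → ℂ) : (Σ q : Fin Q, Fin (nu c q)) ⊕ Fin (2 * Q - ∑ q, nu c q) → ℂ :=
  Sum.elim (fun s => vv c s.1) (fun _ => 0)

/-- the frequency of an option -/
def ofr (c : Fin Q → ℂ) (κ : Fin Q → Fin d → ℤ) :
    (Σ q : Fin Q, Fin (nu c q)) ⊕ Fin (2 * Q - ∑ q, nu c q) → Fin d → ℤ :=
  Sum.elim (fun s => κ s.1) (fun _ => 0)

lemma oc_norm (c : Fin Q → ℂ) (a) : ‖oc c a‖ ≤ 2 * ∑ q', ‖c q'‖ := by
  rcases a with s | s
  · exact vv_norm c s.1
  · unfold oc
    simp only [Sum.elim_inr, norm_zero]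
    have : 0 ≤ ∑ q', ‖c q'‖ := Finset.sum_nonneg (fun _ _ => norm_nonneg _)
    linarith

lemma oc_sum (c : Fin Q → ℂ) (κ : Fin Q → Fin d → ℤ) (x : Fin d → ℝ) :
    ∑ a, oc c a * ex (ofr c κ a) x = 2 * Q * ∑ q, c q * ex (κ q) x := by
  rw [Fintype.sum_sum_type, Fintype.sum_sigma]
  simp only [oc, ofr, Sum.elim_inl, Sum.elim_inr, zero_mul, Finset.sum_const_zero, add_zero,
    Finset.sum_const, Finset.card_univ, Fintype.card_fin, nsmul_eq_mul]
  rw [Finset.mul_sum]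
  refine Finset.sum_congr rfl (fun q _ => ?_)
  rw [← mul_assoc, nu_vv, mul_assoc]

end

/-- sparse approximation -/
theorem sparse (hd : 0 < d) (a J : ℕ) (κ : Fin (2 ^ a) × Fin (2 ^ J) → Fin d → ℤ)
    (c : Fin (2 ^ a) × Fin (2 ^ J) → ℂ) (D : ℕ) (hD : 0 < D) (hκ : ∀ p i, |κ p i| ≤ D)
    (E : ℝ) (hE : 0 < E) (hc : ∑ p, ‖c p‖ ^ 2 ≤ E ^ 2) (L : ℕ) (hJL : J ≤ L)
    (hT : 4 * (26 * d * D) ^ d ≤ 2 ^ L * 2 ^ a) :
    ∃ g, TP d (2 * 2 ^ a) g ∧ ∀ x, ‖∑ p, c p * ex (κ p) x - g x‖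
      ≤ 384 * ((L : ℝ) + 6) ^ 2 * (Real.sqrt 2) ^ J * E := by
  classical
  have ha0 : (0 : ℝ) < 2 ^ a := by positivity
  -- the large coefficients
  set big : Finset (Fin (2 ^ a) × Fin (2 ^ J)) := univ.filter (fun p => E ^ 2 / 2 ^ a < ‖c p‖ ^ 2)
    with hbig
  have hbigc : big.card ≤ 2 ^ a := by
    have h1 : (((big.card : ℕ)) : ℝ) * (E ^ 2 / 2 ^ a) ≤ E ^ 2 := by
      calc (((big.card : ℕ)) : ℝ) * (E ^ 2 / 2 ^ a) = ∑ p ∈ big, E ^ 2 / 2 ^ a := by
            rw [Finset.sum_const, nsmul_eq_mul]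
        _ ≤ ∑ p ∈ big, ‖c p‖ ^ 2 := Finset.sum_le_sum (fun p hp => (mem_filter.1 hp).2.le)
        _ ≤ ∑ p, ‖c p‖ ^ 2 := Finset.sum_le_sum_of_subset_of_nonneg (Finset.subset_univ _)
            (fun _ _ _ => by positivity)
        _ ≤ _ := hc
    have h2 : (((big.card : ℕ)) : ℝ) ≤ 2 ^ a := by
      have h3 : 0 < E ^ 2 / 2 ^ a := by positivity
      have h4 : (((big.card : ℕ)) : ℝ) * (E ^ 2 / 2 ^ a) ≤ 2 ^ a * (E ^ 2 / 2 ^ a) := by
        refine h1.trans (le_of_eq ?_)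
        field_simp
      exact le_of_mul_le_mul_right h4 h3
    exact_mod_cast h2
  set c' : Fin (2 ^ a) × Fin (2 ^ J) → ℂ := fun p => if p ∈ big then 0 else c p with hc'
  have hc'1 : ∀ p, ‖c' p‖ ^ 2 ≤ E ^ 2 / 2 ^ a := by
    intro p
    simp only [hc']
    split_ifs with h
    · rw [norm_zero, zero_pow (by norm_num)]
      positivity
    · rw [hbig, mem_filter, not_and, not_lt] at h
      exact h (mem_univ p)
  have hc'2 : ∑ p, ‖c' p‖ ^ 2 ≤ E ^ 2 := by
    refine le_trans (Finset.sum_le_sum (fun p _ => ?_)) hc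
    simp only [hc']
    split_ifs with h
    · rw [norm_zero, zero_pow (by norm_num)]
      positivity
    · exact le_rfl
  -- the masses of the cells
  set μ : Fin (2 ^ a) → ℝ := fun k => ∑ q, ‖c' (k, q)‖ with hμ
  have hμ0 : ∀ k, 0 ≤ μ k := fun k => Finset.sum_nonneg (fun _ _ => norm_nonneg _)
  have hμsq : ∀ k, (μ k) ^ 2 ≤ 2 ^ J * ∑ q, ‖c' (k, q)‖ ^ 2 := by
    intro k
    have := sq_sum_le_card_mul_sum_sq (s := (univ : Finset (Fin (2 ^ J))))
      (f := fun q => ‖c' (k, q)‖)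
    simpa using this
  have hμ2 : ∑ k, (μ k) ^ 2 ≤ 2 ^ J * E ^ 2 := by
    calc ∑ k, (μ k) ^ 2 ≤ ∑ k, 2 ^ J * ∑ q, ‖c' (k, q)‖ ^ 2 :=
          Finset.sum_le_sum (fun k _ => hμsq k)
      _ = 2 ^ J * ∑ p, ‖c' p‖ ^ 2 := by rw [← Finset.mul_sum, Fintype.sum_prod_type]
      _ ≤ _ := by gcongr
  have hμs : ∀ k, (μ k) ^ 2 * 2 ^ a ≤ 2 ^ J * 2 ^ J * E ^ 2 := by
    intro k
    have h1 : ∑ q, ‖c' (k, q)‖ ^ 2 ≤ 2 ^ J * (E ^ 2 / 2 ^ a) := by
      refine (Finset.sum_le_sum (fun q _ => hc'1 (k, q))).trans (le_of_eq ?_)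
      rw [Finset.sum_const, Finset.card_univ, Fintype.card_fin, nsmul_eq_mul]
      push_cast
      rfl
    calc (μ k) ^ 2 * 2 ^ a ≤ (2 ^ J * (2 ^ J * (E ^ 2 / 2 ^ a))) * 2 ^ a := by
          have := (hμsq k).trans (mul_le_mul_of_nonneg_left h1 (by positivity))
          gcongr
      _ = _ := by field_simp
  -- the tests
  set Nn : Fin d → ℕ := fun _ => 26 * d * D with hNn
  have hNpos : 0 < 26 * d * D := by positivity
  set X := (Fin d → Fin (26 * d * D)) × Fin 4 with hX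
  set rot : Fin 4 → ℂ := ![1, -1, Complex.I, -Complex.I] with hrot
  have hrot1 : ∀ j, ‖rot j‖ = 1 := by
    intro j
    fin_cases j <;> simp [hrot]
  have hcardX : Fintype.card X = 4 * (26 * d * D) ^ d := by
    show Fintype.card ((Fin d → Fin (26 * d * D)) × Fin 4) = _
    rw [Fintype.card_prod, Fintype.card_fun, Fintype.card_fin, Fintype.card_fin, Fintype.card_fin]
    ring
  -- the options
  have hsl : ∀ k, Nonempty (Fin (2 * 2 ^ J) ≃ (Σ q : Fin (2 ^ J), Fin (nu (fun q => c' (k, q)) q))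
      ⊕ Fin (2 * 2 ^ J - ∑ q, nu (fun q => c' (k, q)) q)) := fun k => slots _
  choose e _he using fun k => (⟨(hsl k).some, trivial⟩ :
    ∃ _e : Fin (2 * 2 ^ J) ≃ (Σ q : Fin (2 ^ J), Fin (nu (fun q => c' (k, q)) q))
      ⊕ Fin (2 * 2 ^ J - ∑ q, nu (fun q => c' (k, q)) q), True)
  set oo : Fin (2 ^ a) → Fin (2 * 2 ^ J) → ℂ := fun k b => oc (fun q => c' (k, q)) (e k b) with hoo
  set ff : Fin (2 ^ a) → Fin (2 * 2 ^ J) → Fin d → ℤ := fun k b =>
    ofr (fun q => c' (k, q)) (fun q => κ (k, q)) (e k b) with hff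
  have hoo1 : ∀ k b, ‖oo k b‖ ≤ 2 * μ k := fun k b => oc_norm _ _
  have hff1 : ∀ k b i, |ff k b i| ≤ D := by
    intro k b i
    simp only [hff, ofr]
    rcases e k b with s | s
    · exact hκ (k, s.1) i
    · simp
  have hoosum : ∀ k x, ∑ b, oo k b * ex (ff k b) x
      = 2 * 2 ^ J * ∑ q, c' (k, q) * ex (κ (k, q)) x := by
    intro k x
    have h1 := oc_sum (fun q => c' (k, q)) (fun q => κ (k, q)) x
    rw [← Equiv.sum_comp (e k)] at h1
    push_cast at h1
    exact h1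
  set Φ : X → Fin (2 ^ a) → Fin (2 * 2 ^ J) → ℝ := fun t k b =>
    (rot t.2 * (oo k b * ex (ff k b) (gp Nn (fun i => t.1 i)))).re with hΦ
  have hΦ1 : ∀ t k b, |Φ t k b| ≤ 2 * μ k := by
    intro t k b
    refine (Complex.abs_re_le_norm _).trans ?_
    rw [norm_mul, hrot1, one_mul, norm_mul, ex_norm, mul_one]
    exact hoo1 k b
  set rr : ℝ := 2 * ((Real.sqrt 2) ^ J * E) with hrr
  have hrr0 : 0 < rr := by positivity
  have hrr2 : rr ^ 2 = 4 * (2 ^ J * E ^ 2) := by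
    rw [hrr, mul_pow, mul_pow, ← pow_mul, mul_comm J 2, pow_mul, Real.sq_sqrt (by norm_num)]
    norm_num
  obtain ⟨f, hf⟩ := options (T := X) (K := Fin (2 ^ a)) L (by
      rw [hcardX, Fintype.card_fin]
      exact_mod_cast hT) (fun _ k => 2 * μ k) (fun _ => rr) (fun _ => hrr0) (by
      intro t
      rw [hrr2]
      calc ∑ k, (2 * μ k) ^ 2 = 4 * ∑ k, (μ k) ^ 2 := by
            rw [Finset.mul_sum]
            exact Finset.sum_congr rfl (fun k _ => by ring)
        _ ≤ _ := by gcongr) (by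
      intro t k
      rw [hrr2, Fintype.card_fin]
      push_cast
      have h1 := hμs k
      have h2 : (2 : ℝ) ^ J ≤ 2 ^ L := pow_le_pow_right₀ (by norm_num) hJL
      calc (2 * μ k) ^ 2 * 2 ^ a = 4 * ((μ k) ^ 2 * 2 ^ a) := by ring
        _ ≤ 4 * (2 ^ J * 2 ^ J * E ^ 2) := by gcongr
        _ ≤ 4 * (2 ^ L * 2 ^ J * E ^ 2) := by gcongr
        _ = _ := by ring) (J + 1) (Fin (2 * 2 ^ J)) (by
      rw [Fintype.card_fin, pow_succ]
      ring) Φ (by
      intro t k b b'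
      have h1 := hΦ1 t k b
      have h2 := hΦ1 t k b'
      have h3 := abs_sub (Φ t k b) (Φ t k b')
      linarith)
  set B : ℝ := 48 * ((L : ℝ) + 6) ^ 2 * rr with hB
  have hfB : ∀ t, |∑ k, Φ t k (f k) - (1 / 2 ^ (J + 1)) * ∑ k, ∑ b, Φ t k b| ≤ B := by
    intro t
    refine (hf t).trans ?_
    have h1 := hs_le (J + 1)
    have h2 : 0 ≤ 12 * ((L : ℝ) + 6) ^ 2 * rr := by positivity
    calc 12 * ((L : ℝ) + 6) ^ 2 * rr * hs (J + 1) ≤ 12 * ((L : ℝ) + 6) ^ 2 * rr * 4 := by gcongr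
      _ = _ := by
          rw [hB]
          ring
  -- the approximant
  set g1 : (Fin d → ℝ) → ℂ := fun x => ∑ p ∈ big, c p * ex (κ p) x with hg1
  set g2 : (Fin d → ℝ) → ℂ := fun x => ∑ k : Fin (2 ^ a), oo k (f k) * ex (ff k (f k)) x with hg2
  have hT1 : TP d (2 ^ a) g1 := by
    refine TP_index big c κ (big.image κ) (Finset.card_image_le.trans hbigc) ?_
    intro p hp _
    exact Finset.mem_image_of_mem κ hp
  have hT2 : TP d (2 ^ a) g2 := by
    refine TP_index univ (fun k => oo k (f k)) (fun k => ff k (f k))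
      (univ.image (fun k => ff k (f k))) (Finset.card_image_le.trans (by simp)) ?_
    intro k _ _
    exact Finset.mem_image_of_mem (fun k => ff k (f k)) (mem_univ k)
  refine ⟨fun x => g1 x + g2 x, (hT1.add hT2).mono (le_of_eq (by ring)), ?_⟩
  have hsplit : ∀ x, ∑ p, c p * ex (κ p) x - (g1 x + g2 x)
      = ∑ p, c' p * ex (κ p) x - g2 x := by
    intro x
    have h1 : ∑ p, c p * ex (κ p) x = g1 x + ∑ p, c' p * ex (κ p) x := by
      have h2 : g1 x = ∑ p, (if p ∈ big then c p * ex (κ p) x else 0) := by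
        simp only [hg1]
        rw [Finset.sum_ite_mem, Finset.univ_inter]
      rw [h2, ← Finset.sum_add_distrib]
      refine Finset.sum_congr rfl (fun p _ => ?_)
      simp only [hc']
      split_ifs <;> ring
    rw [h1]
    ring
  -- the bound on the grid
  have hgrid : ∀ ξ : Fin d → ℕ, (∀ i, ξ i < Nn i) →
      ‖∑ p, c' p * ex (κ p) (gp Nn ξ) - g2 (gp Nn ξ)‖ ≤ 2 * B := by
    intro ξ hξ
    set y := gp Nn ξ with hy
    set x1 : Fin d → Fin (26 * d * D) := fun i => ⟨ξ i, hξ i⟩ with hx1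
    set w := g2 y - ∑ p, c' p * ex (κ p) y with hw
    have hrotb : ∀ j, |(rot j * w).re| ≤ B := by
      intro j
      have h2 := hfB (x1, j)
      have h3 : ∑ k, Φ (x1, j) k (f k) = (rot j * g2 y).re := by
        simp only [hΦ, hg2]
        rw [← Complex.re_sum, ← Finset.mul_sum]
      have h4 : (1 / 2 ^ (J + 1)) * ∑ k, ∑ b, Φ (x1, j) k b
          = (rot j * ∑ p, c' p * ex (κ p) y).re := by
        have h5 : ∀ k, ∑ b, Φ (x1, j) k b
            = (rot j * (2 * 2 ^ J * ∑ q, c' (k, q) * ex (κ (k, q)) y)).re := by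
          intro k
          rw [← hoosum k y, Finset.mul_sum, Complex.re_sum]
        simp only [h5]
        rw [← Complex.re_sum, ← Finset.mul_sum, ← Finset.mul_sum, Fintype.sum_prod_type]
        have h6 : (rot j * (2 * 2 ^ J * ∑ k, ∑ q, c' (k, q) * ex (κ (k, q)) y))
            = ((2 ^ (J + 1) : ℝ) : ℂ) * (rot j * ∑ k, ∑ q, c' (k, q) * ex (κ (k, q)) y) := by
          push_cast
          rw [pow_succ]
          ring
        rw [h6, Complex.re_ofReal_mul]
        field_simp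
      rw [h3, h4, ← Complex.sub_re, ← mul_sub] at h2
      exact h2
    have r0 := hrotb 0
    have r2 := hrotb 2
    simp only [hrot, Matrix.cons_val_zero, Matrix.cons_val] at r0 r2
    have hre : |w.re| ≤ B := by
      rwa [one_mul] at r0
    have him : |w.im| ≤ B := by
      have h5 : (Complex.I * w).re = -w.im := by simp
      rwa [h5, abs_neg] at r2
    rw [norm_sub_rev]
    refine (Complex.norm_le_abs_re_add_abs_im w).trans ?_
    linarith
  intro x
  rw [hsplit]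
  -- combine into one indexed sum
  set idx : Finset ((Fin (2 ^ a) × Fin (2 ^ J)) ⊕ Fin (2 ^ a)) := univ.disjSum univ with hidx
  set cc : (Fin (2 ^ a) × Fin (2 ^ J)) ⊕ Fin (2 ^ a) → ℂ := Sum.elim c' (fun k => -(oo k (f k)))
    with hcc
  set kk : (Fin (2 ^ a) × Fin (2 ^ J)) ⊕ Fin (2 ^ a) → Fin d → ℤ :=
    Sum.elim κ (fun k => ff k (f k)) with hkk
  have hcomb : ∀ x, ∑ j ∈ idx, cc j * ex (kk j) x = ∑ p, c' p * ex (κ p) x - g2 x := by
    intro x
    rw [hidx, Finset.sum_disjSum]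
    simp only [hcc, hkk, Sum.elim_inl, Sum.elim_inr, hg2]
    rw [sub_eq_add_neg, ← Finset.sum_neg_distrib]
    congr 1
    exact Finset.sum_congr rfl (fun i _ => by ring)
  have h8 := grid_sup idx cc kk (fun _ => D) Nn (fun _ => hD) (fun _ => hNpos) (by
    intro j _ i
    rcases j with k | j
    · exact hκ k i
    · exact hff1 j (f j) i) (by
    have hdr : (0 : ℝ) < d := by exact_mod_cast hd
    have hDr : (0 : ℝ) < D := by exact_mod_cast hD
    simp only [hNn]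
    rw [Finset.sum_const, Finset.card_univ, Fintype.card_fin, nsmul_eq_mul]
    push_cast
    refine le_of_eq ?_
    field_simp
    norm_num) (2 * B) (by
    intro ξ hξ
    rw [hcomb]
    exact hgrid ξ hξ) x
  rw [hcomb] at h8
  refine h8.trans (le_of_eq ?_)
  rw [hB, hrr]
  ring

end

end Pool.Agent.H73.KH
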