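import Pool.Agent.H73.KH.Up2m
import Pool.Agent.H73.KH.Sparse

set_option autoImplicit false
set_option linter.unusedSectionVars false

/-! The classes with `p ≥ 2` in one variable: the upper bound without logarithm. -/

open Finset ComplexConjugate MeasureTheory UnitAddTorus Filter

open scoped Topology NNReal ENNReal

namespace Pool.Agent.H73.KH

open Pool.Agent.H75.UB

noncomputable section

local instance ms_u1 : MeasureSpace UnitAddCircle := ⟨AddCircle.haarAddCircle⟩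

local instance ha_u1 : Measure.IsAddHaarMeasure (volume : Measure UnitAddCircle) :=
  inferInstanceAs (Measure.IsAddHaarMeasure AddCircle.haarAddCircle)

local instance pr_u1 : IsProbabilityMeasure (volume : Measure UnitAddCircle) :=
  inferInstanceAs (IsProbabilityMeasure AddCircle.haarAddCircle)

lemma rho1_card (l : ℕ) (hl : 1 ≤ l) : #(rho1 l) = 2 ^ l := by
  have h := sum_rho1 l hl (fun _ => 1)
  simp only [Finset.sum_const, nsmul_eq_mul, mul_one, Nat.card_Ico] at h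
  have h1 : #(rho1 l) = (2 ^ l - 2 ^ (l - 1)) * 2 := by
    have : ((#(rho1 l) : ℕ) : ℂ) = (((2 ^ l - 2 ^ (l - 1)) * 2 : ℕ) : ℂ) := by
      rw [h]
      push_cast
      ring
    exact_mod_cast this
  rw [h1]
  have h2 : 2 ^ l = 2 ^ (l - 1) * 2 := by rw [← pow_succ, Nat.sub_add_cancel hl]
  omega

lemma rho_one_card (l : ℕ) (hl : 1 ≤ l) : #(rho (fun _ : Fin 1 => l)) = 2 ^ l := by
  rw [rho_pi, Fintype.card_piFinset]
  simp [rho1_card l hl]

lemma Sl_one (l : ℕ) : Sl 1 l = {fun _ : Fin 1 => l} := by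
  ext s
  rw [mem_Sl, mem_singleton]
  constructor
  · intro h
    funext i
    rw [Fin.sum_univ_one] at h
    rw [Subsingleton.elim i 0]
    exact h
  · rintro rfl
    simp

/-- one block -/
lemma block_one (l J : ℕ) (hl : 1 ≤ l) (hJ : J ≤ l) (b : (Fin 1 → ℤ) → ℂ) (E : ℝ) (hE : 0 < E)
    (hb : en b (fun _ => l) ≤ E) : ∃ g, TP 1 (2 * 2 ^ (l - J)) g ∧
      ∀ x, ‖fs b (fun _ => l) x - g x‖
        ≤ 384 * (((J + 7 : ℕ) : ℝ) + 6) ^ 2 * (Real.sqrt 2) ^ J * E := by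
  set S := rho (fun _ : Fin 1 => l) with hS
  have hcard : #S = 2 ^ (l - J) * 2 ^ J := by
    rw [hS, rho_one_card l hl, ← pow_add, Nat.sub_add_cancel hJ]
  set e : Fin (2 ^ (l - J)) × Fin (2 ^ J) ≃ S :=
    finProdFinEquiv.trans (S.equivFinOfCardEq hcard).symm with he
  have hsum : ∀ F : (Fin 1 → ℤ) → ℂ, ∑ p, F (e p) = ∑ k ∈ S, F k := by
    intro F
    rw [← Finset.sum_coe_sort S F]
    exact Equiv.sum_comp e (fun k : S => F k)
  have hsumr : ∀ F : (Fin 1 → ℤ) → ℝ, ∑ p, F (e p) = ∑ k ∈ S, F k := by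
    intro F
    rw [← Finset.sum_coe_sort S F]
    exact Equiv.sum_comp e (fun k : S => F k)
  obtain ⟨g, hg1, hg2⟩ := sparse (d := 1) (by norm_num) (l - J) J (fun p => (e p : Fin 1 → ℤ))
    (fun p => b (e p)) (2 ^ l) (by positivity) (by
      intro p i
      have h1 := mem_Box.1 (rho_sub _ (e p).2) i
      push_cast
      rw [abs_le]
      constructor <;> linarith [h1.1, h1.2]) E hE (by
      have h1 := hsumr (fun k => ‖b k‖ ^ 2)
      rw [h1, ← en_sq]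
      have h2 := en_nonneg b (fun _ : Fin 1 => l)
      gcongr) (J + 7) (by omega) (by
      have h1 : 2 ^ (J + 7) * 2 ^ (l - J) = 2 ^ l * 128 := by
        rw [← pow_add]
        have : J + 7 + (l - J) = l + 7 := by omega
        rw [this, pow_add]
        norm_num
      rw [h1, pow_one]
      generalize 2 ^ l = u
      omega)
  refine ⟨g, hg1, fun x => ?_⟩
  have h1 := hg2 x
  have h2 := hsum (fun k => b k * ex k x)
  rw [h2] at h1
  exact h1

lemma cnt (q n : ℕ) (hq : 0 < q) (M : ℕ) (hM : M ≤ n + 1) :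
    ∑ j ∈ range (q * M), 2 ^ (n - j / q) + q * 2 ^ (n + 1 - M) ≤ q * 2 ^ (n + 1) := by
  induction M with
  | zero => simp
  | succ M ih =>
    have h1 := ih (by omega)
    rw [Nat.mul_succ, Finset.sum_range_add]
    have h2 : ∑ x ∈ range q, 2 ^ (n - (q * M + x) / q) = q * 2 ^ (n - M) := by
      have h3 : ∀ x ∈ range q, 2 ^ (n - (q * M + x) / q) = 2 ^ (n - M) := by
        intro x hx
        rw [mem_range] at hx
        rw [Nat.mul_add_div hq, Nat.div_eq_of_lt hx, add_zero]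
      rw [Finset.sum_congr rfl h3, Finset.sum_const, card_range, smul_eq_mul]
    rw [h2]
    have h4 : n + 1 - (M + 1) = n - M := by omega
    have h5 : n + 1 - M = (n - M) + 1 := by omega
    rw [h4]
    rw [h5, pow_succ] at h1
    nlinarith

/-- the error of one layer -/
lemma lay_err (r : ℝ) (q : ℕ) (hq : 0 < q) (hq2 : (1 + 1 / (q : ℝ)) / 2 < r) :
    ∃ (K z : ℝ), 0 < K ∧ 0 < z ∧ z < 1 ∧ ∀ n j : ℕ,
      (((j + j / q + 7 : ℕ) : ℝ) + 6) ^ 2 * (Real.sqrt 2) ^ (j + j / q)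
        * ((2 : ℝ) ^ (n + j)) ^ (-r) ≤ K * ((2 : ℝ) ^ n) ^ (-r) * z ^ j := by
  set δ := r - (1 + 1 / (q : ℝ)) / 2 with hδ
  have hδ0 : 0 < δ := by linarith
  have hq0 : (0 : ℝ) < q := by exact_mod_cast hq
  set y := (2 : ℝ) ^ (δ / 2) with hy
  have hy1 : 1 < y := Real.one_lt_rpow (by norm_num) (by positivity)
  obtain ⟨K, hK0, hK⟩ := poly_exp 2 y hy1
  set z := (2 : ℝ) ^ (-(δ / 2)) with hz
  have hz0 : 0 < z := by positivity
  have hz1 : z < 1 := Real.rpow_lt_one_of_one_lt_of_neg (by norm_num) (by linarith)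
  refine ⟨169 * K, z, by positivity, hz0, hz1, ?_⟩
  intro n j
  have hj0 : (0 : ℝ) ≤ j := Nat.cast_nonneg _
  have hjq : ((j / q : ℕ) : ℝ) ≤ (j : ℝ) / q := Nat.cast_div_le
  have hjq1 : ((j / q : ℕ) : ℝ) ≤ j := by exact_mod_cast Nat.div_le_self j q
  have h1 : (((j + j / q + 7 : ℕ) : ℝ) + 6) ^ 2 ≤ 169 * (K * y ^ j) := by
    have e1 : ((j + j / q + 7 : ℕ) : ℝ) + 6 ≤ 13 * ((j : ℝ) + 1) := by
      push_cast
      linarith
    have e2 := hK j
    have e3 : (0 : ℝ) ≤ ((j + j / q + 7 : ℕ) : ℝ) + 6 := by positivity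
    calc (((j + j / q + 7 : ℕ) : ℝ) + 6) ^ 2 ≤ (13 * ((j : ℝ) + 1)) ^ 2 :=
          pow_le_pow_left₀ e3 e1 2
      _ = 169 * ((j : ℝ) + 1) ^ 2 := by ring
      _ ≤ _ := by gcongr
  have h2 : (Real.sqrt 2) ^ (j + j / q) ≤ ((2 : ℝ) ^ ((1 + 1 / (q : ℝ)) / 2)) ^ j := by
    rw [Real.sqrt_eq_rpow, ← Real.rpow_natCast ((2 : ℝ) ^ (1 / 2 : ℝ)),
      ← Real.rpow_mul (by norm_num), ← Real.rpow_natCast ((2 : ℝ) ^ ((1 + 1 / (q : ℝ)) / 2)) j,
      ← Real.rpow_mul (by norm_num)]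
    refine Real.rpow_le_rpow_of_exponent_le (by norm_num) ?_
    push_cast
    have : (1 + 1 / (q : ℝ)) / 2 * j = 1 / 2 * (j + (j : ℝ) / q) := by ring
    rw [this]
    linarith
  have h3 : ((2 : ℝ) ^ (n + j)) ^ (-r) = ((2 : ℝ) ^ n) ^ (-r) * ((2 : ℝ) ^ (-r)) ^ j := by
    rw [pow_add, Real.mul_rpow (by positivity) (by positivity), rpow_pow_swap (-r) j]
  have h4 : y ^ j * ((2 : ℝ) ^ ((1 + 1 / (q : ℝ)) / 2)) ^ j * ((2 : ℝ) ^ (-r)) ^ j = z ^ j := by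
    rw [← mul_pow, ← mul_pow]
    congr 1
    rw [hy, hz, ← Real.rpow_add (by norm_num), ← Real.rpow_add (by norm_num)]
    congr 1
    rw [hδ]
    ring
  rw [h3]
  calc (((j + j / q + 7 : ℕ) : ℝ) + 6) ^ 2 * (Real.sqrt 2) ^ (j + j / q)
        * (((2 : ℝ) ^ n) ^ (-r) * ((2 : ℝ) ^ (-r)) ^ j)
      ≤ (169 * (K * y ^ j)) * ((2 : ℝ) ^ ((1 + 1 / (q : ℝ)) / 2)) ^ j
        * (((2 : ℝ) ^ n) ^ (-r) * ((2 : ℝ) ^ (-r)) ^ j) := by gcongr
    _ = 169 * K * ((2 : ℝ) ^ n) ^ (-r)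
        * (y ^ j * ((2 : ℝ) ^ ((1 + 1 / (q : ℝ)) / 2)) ^ j * ((2 : ℝ) ^ (-r)) ^ j) := by ring
    _ = _ := by rw [h4]

/-- the layers in the middle range -/
lemma mid_one (r : ℝ) (hr : 1 / 2 < r) (q : ℕ) (hq : 0 < q) (hq2 : (1 + 1 / (q : ℝ)) / 2 < r) :
    ∃ C : ℝ, 0 < C ∧ ∀ (φ : TT 1 → ℂ), MemLp φ 2 volume → eLpNorm φ 2 volume ≤ 1 →
      ∀ n : ℕ, 1 ≤ n → ∃ G, TP 1 (2 * (q * 2 ^ (n + 1))) G ∧
      ∀ x, ‖∑ l ∈ Finset.Ico n (n + q * n), ∑ s ∈ Sl 1 l, fs (bc r φ) s x - G x‖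
        ≤ C * ((2 : ℝ) ^ n) ^ (-r) := by
  have hr0 : 0 < r := by linarith
  obtain ⟨K, z, hK0, hz0, hz1, hKz⟩ := lay_err r q hq hq2
  have h1z : 0 < 1 - z := by linarith
  set CB : ℝ := (2 ^ r) ^ 1 with hCB
  have hCB0 : 0 < CB := by positivity
  refine ⟨384 * CB * K * (1 / (1 - z)), by positivity, ?_⟩
  intro φ hφ hφ1 n hn
  have hen : ∀ l, en (bc r φ) (fun _ : Fin 1 => l) ≤ CB * ((2 : ℝ) ^ l) ^ (-r) := by
    intro l
    have h1 := energies2 (d := 1) (by norm_num) r hr0 φ hφ hφ1 l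
    rw [Sl_one, Finset.sum_singleton] at h1
    refine h1.trans (le_of_eq ?_)
    unfold Bl
    simp only [Nat.sub_self, pow_zero, Real.one_rpow, mul_one, sub_self, sub_zero]
    rw [hCB]
  have hl : ∀ j, ∃ G, TP 1 (2 * 2 ^ (n - j / q)) G ∧ (j ∈ range (q * n) →
      ∀ x, ‖∑ s ∈ Sl 1 (n + j), fs (bc r φ) s x - G x‖
        ≤ 384 * CB * K * ((2 : ℝ) ^ n) ^ (-r) * z ^ j) := by
    intro j
    by_cases hj : j ∈ range (q * n)
    · rw [mem_range] at hj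
      have hjn : j / q ≤ n := (Nat.div_lt_of_lt_mul hj).le
      obtain ⟨g, hg1, hg2⟩ := block_one (n + j) (j + j / q) (by omega) (by omega) (bc r φ)
        (CB * ((2 : ℝ) ^ (n + j)) ^ (-r)) (by positivity) (hen (n + j))
      refine ⟨g, ?_, fun _ x => ?_⟩
      · have e1 : n + j - (j + j / q) = n - j / q := by omega
        rwa [e1] at hg1
      · rw [Sl_one, Finset.sum_singleton]
        refine (hg2 x).trans ?_
        have h2 := hKz n j
        calc 384 * (((j + j / q + 7 : ℕ) : ℝ) + 6) ^ 2 * (Real.sqrt 2) ^ (j + j / q)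
              * (CB * ((2 : ℝ) ^ (n + j)) ^ (-r))
            = 384 * CB * ((((j + j / q + 7 : ℕ) : ℝ) + 6) ^ 2 * (Real.sqrt 2) ^ (j + j / q)
              * ((2 : ℝ) ^ (n + j)) ^ (-r)) := by ring
          _ ≤ 384 * CB * (K * ((2 : ℝ) ^ n) ^ (-r) * z ^ j) := by gcongr
          _ = _ := by ring
    · exact ⟨fun _ => 0, TP_zero 1 _, fun h => absurd h hj⟩
  choose G hG1 hG2 using hl
  refine ⟨fun x => ∑ j ∈ range (q * n), G j x, ?_, ?_⟩
  · have h1 := TP.sum (range (q * n)) (fun j => 2 * 2 ^ (n - j / q)) G (fun j _ => hG1 j)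
    refine h1.mono ?_
    rw [← Finset.mul_sum]
    have := cnt q n hq n (by omega)
    omega
  · intro x
    have e1 : ∑ l ∈ Finset.Ico n (n + q * n), ∑ s ∈ Sl 1 l, fs (bc r φ) s x
        = ∑ j ∈ range (q * n), ∑ s ∈ Sl 1 (n + j), fs (bc r φ) s x := by
      rw [Finset.sum_Ico_eq_sum_range, Nat.add_sub_cancel_left]
    rw [e1, ← Finset.sum_sub_distrib]
    refine (norm_sum_le _ _).trans ((Finset.sum_le_sum (fun j hj => hG2 j hj x)).trans ?_)
    rw [← Finset.mul_sum]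
    have h2 : ∑ j ∈ range (q * n), z ^ j ≤ 1 / (1 - z) := by
      have := geo_Ico z hz0 hz1 0 (q * n)
      rw [Finset.range_eq_Ico]
      exact this
    calc 384 * CB * K * ((2 : ℝ) ^ n) ^ (-r) * ∑ j ∈ range (q * n), z ^ j
        ≤ 384 * CB * K * ((2 : ℝ) ^ n) ^ (-r) * (1 / (1 - z)) := by gcongr
      _ = _ := by ring

/-- approximation of a function of the class with a number of terms depending on `n` -/
theorem class1_n (r : ℝ) (hr : 1 / 2 < r) :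
    ∃ (C : ℝ) (CN : ℕ), 0 < C ∧ 1 ≤ CN ∧ ∀ n : ℕ, 1 ≤ n →
    ∀ f φ : TT 1 → ℂ, Integrable f volume → MemLp φ 2 volume → eLpNorm φ 2 volume ≤ 1 →
    (∀ k : Fin 1 → ℤ, mFourierCoeff f k
      = (∏ i, Pool.Agent.H75.MT.cr r (k i)) * mFourierCoeff φ k) →
    ∃ (lam : Finset (Fin 1 → ℤ)) (c : (Fin 1 → ℤ) → ℂ), lam.card ≤ CN * 2 ^ n ∧
      eLpNorm (fun x => f x - ∑ k ∈ lam, c k * mFourier k x) ⊤ volume
        ≤ ENNReal.ofReal (C * ((2 : ℝ) ^ n) ^ (-r)) := by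
  obtain ⟨C2, hC2, htc⟩ := tail_choice r hr
  obtain ⟨Ct, hCt, htail⟩ := tail2 1 (by norm_num) r hr
  obtain ⟨q0, hq0⟩ := exists_nat_gt (1 / (2 * r - 1))
  set q := max C2 q0 with hqdef
  have hq : 0 < q := lt_of_lt_of_le (by omega) (le_max_left C2 q0)
  have hqr : (0 : ℝ) < q := by exact_mod_cast hq
  have hq2 : (1 + 1 / (q : ℝ)) / 2 < r := by
    have h1 : 1 / (2 * r - 1) < (q : ℝ) := by
      refine hq0.trans_le ?_
      exact_mod_cast le_max_right C2 q0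
    have h2 : 0 < 2 * r - 1 := by linarith
    rw [div_lt_iff₀ h2] at h1
    have h3 : 1 / (q : ℝ) < 2 * r - 1 := by
      rw [div_lt_iff₀ hqr]
      linarith
    linarith
  obtain ⟨Ch, hCh, hmid⟩ := mid_one r hr q hq hq2
  refine ⟨Ct + Ch, 2 + 4 * q, by positivity, by omega, ?_⟩
  intro n hn f φ hf hφ hφ1 hco
  have hsum := summable2 (d := 1) (by norm_num) r hr φ hφ hφ1
  obtain ⟨G3, hT3, hE3⟩ := hmid φ hφ hφ1 n hn
  have hT1 := low_part (d := 1) (by norm_num) (bc r φ) n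
  obtain ⟨lam, c, hlam, hG⟩ := hT1.add hT3
  refine ⟨lam, c, hlam.trans (le_of_eq ?_), ?_⟩
  · simp only [Nat.sub_self, pow_zero, one_mul, pow_succ]
    ring
  refine close_class r f φ hf hco hsum lam c _ _ hG (n + q * n) ?_
  intro N hN x
  have e1 : Fp (bc r φ) (n + q * n) x = Fp (bc r φ) n x
      + ∑ l ∈ Finset.Ico n (n + q * n), ∑ s ∈ Sl 1 l, fs (bc r φ) s x := by
    unfold Fp
    rw [Finset.sum_range_add_sum_Ico (fun l => ∑ s ∈ Sl 1 l, fs (bc r φ) s x) (by omega)]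
  have e2 : Fp (bc r φ) N x - (Fp (bc r φ) n x + G3 x)
      = (Fp (bc r φ) N x - Fp (bc r φ) (n + q * n) x)
      + (∑ l ∈ Finset.Ico n (n + q * n), ∑ s ∈ Sl 1 l, fs (bc r φ) s x - G3 x) := by
    rw [e1]
    ring
  rw [e2]
  have f1 := htail φ hφ hφ1 (n + q * n) N hN x
  have f2 := htc n
  have f3 := hE3 x
  have f6 : Ct * ((2 : ℝ) ^ (-((r - 1 / 2) / 2))) ^ (n + q * n) ≤ Ct * ((2 : ℝ) ^ n) ^ (-r) := by
    refine mul_le_mul_of_nonneg_left (le_trans ?_ f2) hCt.le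
    refine pow_le_pow_of_le_one (by positivity) ?_ ?_
    · exact (Real.rpow_lt_one_of_one_lt_of_neg (by norm_num) (by linarith)).le
    · have : C2 ≤ q := le_max_left _ _
      nlinarith
  refine (norm_add_le _ _).trans ?_
  linarith

/-- the upper bound in one variable for the classes with `p ≥ 2` -/
theorem upper_one (r : ℝ) (hr : 1 / 2 < r) :
    ∃ C : ℝ, 0 < C ∧ ∀ᶠ m : ℕ in atTop,
    ∀ f φ : TT 1 → ℂ, Integrable f volume → MemLp φ 2 volume → eLpNorm φ 2 volume ≤ 1 →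
    (∀ k : Fin 1 → ℤ, mFourierCoeff f k
      = (∏ i, Pool.Agent.H75.MT.cr r (k i)) * mFourierCoeff φ k) →
    ∃ (lam : Finset (Fin 1 → ℤ)) (c : (Fin 1 → ℤ) → ℂ), lam.card ≤ m ∧
      eLpNorm (fun x => f x - ∑ k ∈ lam, c k * mFourier k x) ⊤ volume
        ≤ ENNReal.ofReal (C * (m : ℝ) ^ (-r)) := by
  obtain ⟨C, CN, hC, hCN, h⟩ := class1_n r hr
  have hCN0 : (0 : ℝ) < CN := by exact_mod_cast hCN
  refine ⟨C * (2 * CN : ℝ) ^ r, by positivity, ?_⟩
  filter_upwards [eventually_ge_atTop (CN * 2)] with m hm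
  intro f φ hf hφ hφ1 hco
  obtain ⟨n, h1, h2⟩ := choose_gen (fun n => CN * 2 ^ (n + 1)) (by
    intro n
    calc 2 ^ n ≤ 2 ^ (n + 1) := Nat.pow_le_pow_right (by norm_num) (by omega)
      _ = 1 * 2 ^ (n + 1) := (one_mul _).symm
      _ ≤ _ := Nat.mul_le_mul_right _ hCN) m (by simpa using hm)
  obtain ⟨lam, c, h3, h4⟩ := h (n + 1) (by omega) f φ hf hφ hφ1 hco
  refine ⟨lam, c, h3.trans h1, h4.trans (ENNReal.ofReal_le_ofReal ?_)⟩
  have hm0 : (0 : ℝ) < m := by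
    have : 0 < m := by omega
    exact_mod_cast this
  have e1 : (m : ℝ) / (2 * CN) ≤ 2 ^ (n + 1) := by
    rw [div_le_iff₀ (by positivity)]
    have e2 : (m : ℝ) ≤ ((CN * 2 ^ (n + 1 + 1) : ℕ) : ℝ) := by exact_mod_cast h2.le
    push_cast at e2
    rw [pow_succ (2 : ℝ) (n + 1)] at e2
    linarith
  have e2 := Real.rpow_le_rpow_of_nonpos (by positivity) e1 (by linarith : -r ≤ 0)
  calc C * ((2 : ℝ) ^ (n + 1)) ^ (-r) ≤ C * ((m : ℝ) / (2 * CN)) ^ (-r) := by gcongr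
    _ = _ := by
        rw [Real.div_rpow hm0.le (by positivity), Real.rpow_neg (x := (2 * CN : ℝ)) (by positivity),
          div_inv_eq_mul]
        ring

end

end Pool.Agent.H73.KH
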