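import Pool.Agent.H73.KH.LowP
import Pool.Agent.H73.KH.UpOne

set_option autoImplicit false
set_option linter.unusedSectionVars false

/-! The classes with `p ≥ 2` in one variable: the lower bound, by the Rudin-Shapiro
polynomials. -/

open Finset ComplexConjugate MeasureTheory UnitAddTorus Filter

open scoped Topology NNReal ENNReal

namespace Pool.Agent.H73.KH

open Pool.Agent.H75.MT (ee ee_add ee_norm ee_conj ee_int ee_zero cr cr_neg ee_nat_mul)
open Pool.Agent.H75.UB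

noncomputable section

local instance ms_l1 : MeasureSpace UnitAddCircle := ⟨AddCircle.haarAddCircle⟩

local instance ha_l1 : Measure.IsAddHaarMeasure (volume : Measure UnitAddCircle) :=
  inferInstanceAs (Measure.IsAddHaarMeasure AddCircle.haarAddCircle)

local instance pr_l1 : IsProbabilityMeasure (volume : Measure UnitAddCircle) :=
  inferInstanceAs (IsProbabilityMeasure AddCircle.haarAddCircle)

/-- the signs of the Rudin-Shapiro polynomials -/
def rs : ℕ → ℕ → ℝ × ℝ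
  | 0, _ => (1, 1)
  | j + 1, k => if k < 2 ^ j then ((rs j k).1, (rs j k).1)
      else ((rs j (k - 2 ^ j)).2, -(rs j (k - 2 ^ j)).2)

lemma rs_abs (j k : ℕ) : |(rs j k).1| = 1 ∧ |(rs j k).2| = 1 := by
  induction j generalizing k with
  | zero => simp [rs]
  | succ j ih =>
    unfold rs
    split_ifs
    · exact ⟨(ih k).1, (ih k).1⟩
    · simp only [abs_neg]
      exact ⟨(ih _).2, (ih _).2⟩

/-- the two polynomials -/
def rA (j : ℕ) (z : ℂ) : ℂ := ∑ k ∈ range (2 ^ j), ((rs j k).1 : ℂ) * z ^ k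

/-- the two polynomials -/
def rB (j : ℕ) (z : ℂ) : ℂ := ∑ k ∈ range (2 ^ j), ((rs j k).2 : ℂ) * z ^ k

lemma rA_succ (j : ℕ) (z : ℂ) : rA (j + 1) z = rA j z + z ^ (2 ^ j) * rB j z := by
  unfold rA rB
  rw [pow_succ, mul_two, Finset.sum_range_add]
  congr 1
  · refine Finset.sum_congr rfl (fun k hk => ?_)
    rw [mem_range] at hk
    rw [rs, if_pos hk]
  · rw [Finset.mul_sum]
    refine Finset.sum_congr rfl (fun k _ => ?_)
    rw [rs, if_neg (by omega), Nat.add_sub_cancel_left, pow_add]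
    ring

lemma rB_succ (j : ℕ) (z : ℂ) : rB (j + 1) z = rA j z - z ^ (2 ^ j) * rB j z := by
  unfold rA rB
  rw [pow_succ, mul_two, Finset.sum_range_add, sub_eq_add_neg]
  congr 1
  · refine Finset.sum_congr rfl (fun k hk => ?_)
    rw [mem_range] at hk
    rw [rs, if_pos hk]
  · rw [Finset.mul_sum, ← Finset.sum_neg_distrib]
    refine Finset.sum_congr rfl (fun k _ => ?_)
    rw [rs, if_neg (by omega), Nat.add_sub_cancel_left, pow_add]
    push_cast
    ring

lemma r_sq (j : ℕ) (z : ℂ) (hz : ‖z‖ = 1) : ‖rA j z‖ ^ 2 + ‖rB j z‖ ^ 2 = 2 ^ (j + 1) := by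
  induction j with
  | zero =>
    simp [rA, rB, rs]
    norm_num
  | succ j ih =>
    rw [rA_succ, rB_succ]
    have h1 := parallelogram_law_with_norm ℝ (rA j z) (z ^ (2 ^ j) * rB j z)
    have h2 : ‖z ^ (2 ^ j) * rB j z‖ = ‖rB j z‖ := by
      rw [norm_mul, norm_pow, hz, one_pow, one_mul]
    rw [h2] at h1
    rw [h1, ih]
    ring

lemma rA_norm (j : ℕ) (z : ℂ) (hz : ‖z‖ = 1) : ‖rA j z‖ ≤ Real.sqrt (2 ^ (j + 1)) := by
  refine Real.le_sqrt_of_sq_le ?_
  have := r_sq j z hz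
  have h2 : 0 ≤ ‖rB j z‖ ^ 2 := by positivity
  linarith

lemma sum_rho_one (l : ℕ) (f : ℤ → ℂ) :
    ∑ k ∈ rho (fun _ : Fin 1 => l), f (k 0) = ∑ j ∈ rho1 l, f j := by
  rw [rho_pi]
  have h := (Finset.prod_univ_sum (fun _ : Fin 1 => rho1 l) (fun _ j => f j)).symm
  simpa using h

/-- the coefficients of the function -/
def ac (j : ℕ) (k : Fin 1 → ℤ) : ℂ :=
  ((1 / (2 * Real.sqrt (2 ^ (j + 1))) * (rs j ((k 0).natAbs - 2 ^ j)).1 : ℝ) : ℂ)

lemma ac_neg (j : ℕ) (k : Fin 1 → ℤ) : ac j (-k) = conj (ac j k) := by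
  unfold ac
  rw [Complex.conj_ofReal, Pi.neg_apply, Int.natAbs_neg]

lemma ac_norm (j : ℕ) (k : Fin 1 → ℤ) : ‖ac j k‖ = 1 / (2 * Real.sqrt (2 ^ (j + 1))) := by
  unfold ac
  rw [Complex.norm_real, Real.norm_eq_abs, abs_mul, (rs_abs _ _).1, mul_one,
    abs_of_pos (by positivity)]

lemma rho_neg (l : ℕ) (k : Fin 1 → ℤ) (hk : k ∈ rho (fun _ : Fin 1 => l)) :
    -k ∈ rho (fun _ : Fin 1 => l) := by
  rw [mem_rho] at hk ⊢
  rw [← hk]
  unfold sz
  funext i
  rw [Pi.neg_apply, Int.natAbs_neg]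

/-- the sup norm of the function -/
lemma flat_one (j : ℕ) (x : TT 1) : ‖tp (rho (fun _ : Fin 1 => j + 1)) (ac j) x‖ ≤ 1 := by
  obtain ⟨y, rfl⟩ := exists_real x
  set D := 2 * Real.sqrt (2 ^ (j + 1)) with hD
  have hD0 : 0 < D := by positivity
  rw [tp_apply]
  have h1 : ∑ k ∈ rho (fun _ : Fin 1 => j + 1), ac j k * mFourier k (fun i => (y i : UnitAddCircle))
      = ∑ k ∈ rho1 (j + 1), ((1 / D * (rs j (k.natAbs - 2 ^ j)).1 : ℝ) : ℂ) * ee (k * y 0) := by
    rw [← sum_rho_one (j + 1) (fun k => ((1 / D * (rs j (k.natAbs - 2 ^ j)).1 : ℝ) : ℂ)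
      * ee (k * y 0))]
    refine Finset.sum_congr rfl (fun k _ => ?_)
    rw [mF_coe]
    unfold ac ex
    rw [Fin.sum_univ_one]
  rw [h1, sum_rho1 (j + 1) (by omega), Finset.sum_add_distrib]
  simp only [Nat.add_sub_cancel, Int.natAbs_natCast, Int.natAbs_neg]
  set S := ∑ n ∈ Finset.Ico (2 ^ j) (2 ^ (j + 1)), ((1 / D * (rs j (n - 2 ^ j)).1 : ℝ) : ℂ)
    * ee (((n : ℤ) : ℝ) * y 0) with hS
  have h2 : ∑ n ∈ Finset.Ico (2 ^ j) (2 ^ (j + 1)), ((1 / D * (rs j (n - 2 ^ j)).1 : ℝ) : ℂ)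
      * ee (((-(n : ℤ) : ℤ) : ℝ) * y 0) = conj S := by
    rw [hS, map_sum]
    refine Finset.sum_congr rfl (fun n _ => ?_)
    rw [map_mul, Complex.conj_ofReal, ee_conj]
    congr 2
    push_cast
    ring
  rw [h2]
  have h3 : S = ((1 / D : ℝ) : ℂ) * (ee (y 0) ^ (2 ^ j) * rA j (ee (y 0))) := by
    rw [hS, Finset.sum_Ico_eq_sum_range]
    have e0 : 2 ^ (j + 1) - 2 ^ j = 2 ^ j := by
      rw [pow_succ]
      omega
    unfold rA
    rw [e0, Finset.mul_sum, Finset.mul_sum]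
    refine Finset.sum_congr rfl (fun n _ => ?_)
    rw [Nat.add_sub_cancel_left, Int.cast_natCast, ee_nat_mul, pow_add]
    push_cast
    ring
  have h4 : ‖S‖ ≤ 1 / 2 := by
    rw [h3, norm_mul, norm_mul, norm_pow, ee_norm, one_pow, one_mul, Complex.norm_real,
      Real.norm_eq_abs, abs_of_pos (by positivity)]
    have h5 := rA_norm j (ee (y 0)) (ee_norm _)
    calc 1 / D * ‖rA j (ee (y 0))‖ ≤ 1 / D * Real.sqrt (2 ^ (j + 1)) := by gcongr
      _ = 1 / 2 := by
          rw [hD]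
          have : 0 < Real.sqrt (2 ^ (j + 1)) := by positivity
          field_simp
  refine (norm_add_le _ _).trans ?_
  rw [RCLike.norm_conj]
  linarith

/-- the construction -/
theorem construct_one (r : ℝ) (hr : 0 < r) (j : ℕ) :
    ∃ F P : C(TT 1, ℂ), (∀ x, (F x).im = 0) ∧ (∀ x, (P x).im = 0) ∧
      (∀ k, mFourierCoeff F k = (∏ i, cr r (k i)) * mFourierCoeff P k) ∧
      (∀ x, ‖P x‖ ≤ 1) ∧
      ∀ (Lam : Finset (Fin 1 → ℤ)), #Lam ≤ 2 ^ j →
        ∀ (b : (Fin 1 → ℤ) → ℂ) (W : ℝ), (∀ x, ‖F x - ∑ k ∈ Lam, b k * mFourier k x‖ ≤ W) →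
        ((2 : ℝ) ^ (j + 1)) ^ (-r) / 3 ≤ W := by
  set U := rho (fun _ : Fin 1 => j + 1) with hU
  set P : C(TT 1, ℂ) := tp U (ac j) with hP
  set F : C(TT 1, ℂ) := tp U (fun k => crp r k * ac j k) with hF
  refine ⟨F, P, ?_, tp_real _ _ (rho_neg _) (fun k _ => ac_neg j k), ?_, flat_one j, ?_⟩
  · refine tp_real _ _ (rho_neg _) (fun k _ => ?_)
    rw [map_mul, ac_neg, crp_neg]
  · intro k
    show co F k = crp r k * co P k
    rw [hF, hP, co_tp, co_tp]
    by_cases h : k ∈ U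
    · rw [if_pos h, if_pos h]
    · rw [if_neg h, if_neg h, mul_zero]
  · intro Lam hLam b W hW
    set V : ℝ := (2 : ℝ) ^ (j + 1) with hV
    have hV0 : 0 < V := by positivity
    set α : ℝ := V ^ (-r) * (1 / (2 * Real.sqrt V)) with hα
    have hα0 : 0 < α := by positivity
    have h1 := energy_lower U U (Finset.Subset.refl _) (fun k => crp r k * ac j k) α hα0.le (by
      intro k hk
      rw [norm_mul, ac_norm, hα, hV]
      refine mul_le_mul_of_nonneg_right ?_ (by positivity)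
      have h2 : k 0 ∈ rho1 (j + 1) := by
        rw [mem_rho1]
        exact congrFun (mem_rho.1 hk) 0
      have h3 := (size_iff _ _ (by omega)).1 (mem_rho1.1 h2)
      have hk0 : k 0 ≠ 0 := by
        intro h
        rw [h] at h3
        have : 0 < 2 ^ (j + 1 - 1) := by positivity
        simp at h3
      unfold crp
      rw [Fin.prod_univ_one, cr_norm r _ hk0]
      refine Real.rpow_le_rpow_of_nonpos ?_ ?_ (by linarith)
      · rw [abs_pos]
        exact_mod_cast hk0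
      · have h4 : (((k 0).natAbs : ℕ) : ℝ) = |((k 0 : ℤ) : ℝ)| := by
          rw [← Int.cast_natCast, Int.natCast_natAbs, Int.cast_abs]
        rw [← h4]
        exact_mod_cast h3.2.le) Lam b W hW
    have hW0 : 0 ≤ W := (norm_nonneg _).trans (hW 0)
    have hcard : (#U : ℝ) = V := by
      rw [hU, rho_one_card (j + 1) (by omega), hV]
      push_cast
      rfl
    have h2 : (#Lam : ℝ) ≤ V / 2 := by
      have : (#Lam : ℝ) ≤ 2 ^ j := by exact_mod_cast hLam
      rw [hV, pow_succ]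
      linarith
    rw [hcard] at h1
    have h3 : V / 2 * α ^ 2 ≤ W ^ 2 := by
      refine le_trans ?_ h1
      refine mul_le_mul_of_nonneg_right ?_ (by positivity)
      linarith
    have h4 : V / 2 * α ^ 2 = (V ^ (-r)) ^ 2 / 8 := by
      rw [hα, mul_pow, div_pow, mul_pow, Real.sq_sqrt hV0.le]
      field_simp
      norm_num
    rw [h4] at h3
    have h5 : (V ^ (-r) / 3) ^ 2 ≤ W ^ 2 := by
      refine le_trans ?_ h3
      have : 0 ≤ (V ^ (-r)) ^ 2 := by positivity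
      rw [div_pow]
      linarith
    exact (pow_le_pow_iff_left₀ (by positivity) hW0 (by norm_num)).1 h5

/-- the lower bound in one variable for the classes with `p ≥ 2` -/
theorem low_one (r : ℝ) (hr : 0 < r) :
    ∃ c : ℝ, 0 < c ∧ ∀ᶠ m : ℕ in atTop,
    ∃ F P : C(TT 1, ℂ), (∀ x, (F x).im = 0) ∧ (∀ x, (P x).im = 0) ∧
      (∀ k, mFourierCoeff F k = (∏ i, cr r (k i)) * mFourierCoeff P k) ∧
      (∀ x, ‖P x‖ ≤ 1) ∧
      ∀ (Lam : Finset (Fin 1 → ℤ)), #Lam ≤ m →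
        ∀ (b : (Fin 1 → ℤ) → ℂ) (W : ℝ), (∀ x, ‖F x - ∑ k ∈ Lam, b k * mFourier k x‖ ≤ W) →
        c * (m : ℝ) ^ (-r) ≤ W := by
  refine ⟨(4 : ℝ) ^ (-r) / 3, by positivity, ?_⟩
  filter_upwards [eventually_ge_atTop 1] with m hm
  set j := Nat.clog 2 m with hj
  have h1 : m ≤ 2 ^ j := Nat.le_pow_clog (by norm_num) m
  have h2 : 2 ^ (j + 1) ≤ 4 * m := by
    rcases Nat.lt_or_ge m 2 with h | h
    · have hm1 : m = 1 := by omega
      rw [hj, hm1]
      simp
    · have h3 : 2 ^ (j - 1) < m := Nat.pow_pred_clog_lt_self (by norm_num) (by omega)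
      have h4 : 0 < j := Nat.clog_pos (by norm_num) h
      have h5 : j + 1 = (j - 1) + 2 := by omega
      rw [h5, pow_add]
      omega
  obtain ⟨F, P, hF, hP, hco, hn, hlow⟩ := construct_one r hr j
  refine ⟨F, P, hF, hP, hco, hn, ?_⟩
  intro Lam hLam b W hW
  refine le_trans ?_ (hlow Lam (hLam.trans h1) b W hW)
  have hm0 : (0 : ℝ) < m := by exact_mod_cast hm
  have h6 : ((2 : ℝ) ^ (j + 1)) ≤ 4 * m := by exact_mod_cast h2
  have h7 := Real.rpow_le_rpow_of_nonpos (by positivity) h6 (by linarith : -r ≤ 0)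
  rw [Real.mul_rpow (by norm_num) hm0.le] at h7
  linarith

end

end Pool.Agent.H73.KH
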