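import Pool.Agent.H73.KH.Layer
import Pool.Agent.H75.UB.Ker

set_option autoImplicit false
set_option linter.unusedSectionVars false

/-! The lower bound for the classes with `1 ≤ p ≤ 2` by the energy. -/

open Finset ComplexConjugate MeasureTheory UnitAddTorus Filter

open scoped ENNReal

namespace Pool.Agent.H73.KH

open Pool.Agent.H75.MT (ee ee_add ee_norm ee_conj ee_int ee_zero cr cr_neg)
open Pool.Agent.H75.UB (TT co co_tp tp tp_apply tp_sq mF_coe exists_real ex ee_prod' Sl mem_Sl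
  Sl_card cint rint co_smul crp)

noncomputable section

local instance : MeasureSpace UnitAddCircle := ⟨AddCircle.haarAddCircle⟩

local instance : Measure.IsAddHaarMeasure (volume : Measure UnitAddCircle) :=
  inferInstanceAs (Measure.IsAddHaarMeasure AddCircle.haarAddCircle)

local instance : IsProbabilityMeasure (volume : Measure UnitAddCircle) :=
  inferInstanceAs (IsProbabilityMeasure AddCircle.haarAddCircle)

variable {d : ℕ}

lemma cr_norm (r : ℝ) (k : ℤ) (hk : k ≠ 0) : ‖cr r k‖ = |(k : ℝ)| ^ (-r) := by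
  unfold cr
  rw [if_neg hk, norm_mul, Complex.norm_exp_ofReal_mul_I, mul_one, Complex.norm_real,
    Real.norm_eq_abs, abs_of_nonneg (by positivity)]

lemma crp_neg (r : ℝ) (k : Fin d → ℤ) : crp r (-k) = conj (crp r k) := by
  unfold crp
  rw [map_prod]
  exact Finset.prod_congr rfl (fun i _ => cr_neg r (k i))

lemma crp_core (r : ℝ) (hr : 0 < r) (n : ℕ) (k : Fin d → ℤ) (hk : k ∈ Cl d n) :
    ((4 : ℝ) ^ d * 8 ^ n) ^ (-r) ≤ ‖crp r k‖ := by
  unfold Cl at hk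
  rw [mem_biUnion] at hk
  obtain ⟨s, hs, hk⟩ := hk
  rw [mem_Cd] at hk
  rw [mem_Sl] at hs
  have h8 : ∀ i, (0 : ℤ) < 8 ^ (s i) := fun i => by positivity
  have hk0 : ∀ i, k i ≠ 0 := by
    intro i h0
    have := hk i
    rw [mem_C1, h0, abs_zero] at this
    linarith [this.1, h8 i]
  unfold crp
  rw [norm_prod]
  have h1 : ∀ i, ‖cr r (k i)‖ = |(k i : ℝ)| ^ (-r) := fun i => cr_norm r _ (hk0 i)
  rw [Finset.prod_congr rfl (fun i _ => h1 i), Real.finsetProd_rpow _ _ (fun i _ => abs_nonneg _)]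
  refine Real.rpow_le_rpow_of_nonpos ?_ ?_ (by linarith)
  · refine Finset.prod_pos (fun i _ => abs_pos.2 ?_)
    exact_mod_cast hk0 i
  · rw [← hs, ← Finset.prod_pow_eq_pow_sum]
    have : (4 : ℝ) ^ d = ∏ _i : Fin d, (4 : ℝ) := by simp
    rw [this, ← Finset.prod_mul_distrib]
    refine Finset.prod_le_prod (fun i _ => abs_nonneg _) (fun i _ => ?_)
    have h2 := (mem_C1.1 (hk i)).2.le
    exact_mod_cast h2

lemma Sl_lower (hd : 1 ≤ d) (n : ℕ) : (n / d + 1) ^ (d - 1) ≤ #(Sl d n) := by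
  obtain ⟨e, rfl⟩ : ∃ e, d = e + 1 := ⟨d - 1, by omega⟩
  have h1 : #(Fintype.piFinset (fun _ : Fin e => Finset.range (n / (e + 1) + 1)))
      = (n / (e + 1) + 1) ^ (e + 1 - 1) := by
    rw [Fintype.card_piFinset]
    simp
  rw [← h1]
  have hsum : ∀ f ∈ Fintype.piFinset (fun _ : Fin e => Finset.range (n / (e + 1) + 1)),
      ∑ i, f i ≤ n := by
    intro f hf
    rw [Fintype.mem_piFinset] at hf
    have h2 : ∑ i, f i ≤ ∑ _i : Fin e, n / (e + 1) :=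
      Finset.sum_le_sum (fun i _ => by have := mem_range.1 (hf i); omega)
    rw [Finset.sum_const, Finset.card_univ, Fintype.card_fin, smul_eq_mul] at h2
    have h3 : e * (n / (e + 1)) ≤ (e + 1) * (n / (e + 1)) := Nat.mul_le_mul_right _ (by omega)
    have h4 : (e + 1) * (n / (e + 1)) ≤ n := Nat.mul_div_le n (e + 1)
    omega
  refine Finset.card_le_card_of_injOn (fun f => Fin.cons (n - ∑ i, f i) f) ?_ ?_
  · intro f hf
    refine Finset.mem_coe.2 (mem_Sl.2 ?_)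
    rw [Fin.sum_univ_succ]
    simp only [Fin.cons_zero, Fin.cons_succ]
    have := hsum f (Finset.mem_coe.1 hf)
    omega
  · intro f _ g _ h
    have h2 := congrArg Fin.tail h
    simpa using h2

/-- the normalising factor -/
def DP (d : ℕ) (p : ℝ) (n : ℕ) : ℝ :=
  ((4 ^ d + 8 ^ d) * (#(Sl d n) * ((8 : ℝ) ^ n) ^ (p - 1))) ^ (1 / p)

lemma Sl_pos (hd : 1 ≤ d) (n : ℕ) : (1 : ℝ) ≤ #(Sl d n) := by
  have h1 := Sl_lower hd n
  have h2 : 1 ≤ (n / d + 1) ^ (d - 1) := Nat.one_le_pow _ _ (Nat.succ_pos _)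
  exact_mod_cast h2.trans h1

lemma DP_pos (hd : 1 ≤ d) (p : ℝ) (n : ℕ) : 0 < DP d p n := by
  unfold DP
  have := Sl_pos hd n
  positivity

/-- the lower bound in terms of the level -/
def ELB (d : ℕ) (p r : ℝ) (n : ℕ) : ℝ :=
  ((4 : ℝ) ^ d * 8 ^ n) ^ (-r) / DP d p n * Real.sqrt (#(Sl d n) * (4 ^ d * 8 ^ n) / 2)

theorem constructP (d : ℕ) (hd : 1 ≤ d) (p r : ℝ) (hp1 : 1 ≤ p) (hp2 : p ≤ 2) (hr : 0 < r)
    (n : ℕ) : ∃ F P : C(TT d, ℂ), (∀ x, (F x).im = 0) ∧ (∀ x, (P x).im = 0) ∧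
      (∀ k, mFourierCoeff F k = (∏ i, cr r (k i)) * mFourierCoeff P k) ∧
      eLpNorm (fun x : TT d => (P x).re) (ENNReal.ofReal p) volume ≤ 1 ∧
      ∀ (Lam : Finset (Fin d → ℤ)), 2 * #Lam ≤ #(Sl d n) * (4 ^ d * 8 ^ n) →
        ∀ (b : (Fin d → ℤ) → ℂ) (W : ℝ), (∀ x, ‖F x - ∑ k ∈ Lam, b k * mFourier k x‖ ≤ W) →
        ELB d p r n ≤ W := by
  have hD := DP_pos hd p n
  set D := DP d p n with hDdef
  have hp0 : 0 < p := by linarith
  have hPsym : ∀ k ∈ Ul d n, ((1 / D : ℝ) : ℂ) * cc (-k) = conj (((1 / D : ℝ) : ℂ) * cc k) := by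
    intro k _
    rw [map_mul, Complex.conj_ofReal, cc_neg]
  set P : C(TT d, ℂ) := tp (Ul d n) (fun k => ((1 / D : ℝ) : ℂ) * cc k) with hP
  set F : C(TT d, ℂ) := tp (Ul d n) (fun k => crp r k * (((1 / D : ℝ) : ℂ) * cc k)) with hF
  have hPre : ∀ x, (P x).im = 0 := tp_real _ _ (fun k hk => Ul_neg hk) hPsym
  refine ⟨F, P, ?_, hPre, ?_, ?_, ?_⟩
  · refine tp_real _ _ (fun k hk => Ul_neg hk) (fun k hk => ?_)
    rw [map_mul, hPsym k hk, crp_neg]
  · intro k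
    show co F k = crp r k * co P k
    rw [hF, hP, co_tp, co_tp]
    by_cases h : k ∈ Ul d n
    · rw [if_pos h, if_pos h]
    · rw [if_neg h, if_neg h, mul_zero]
  · have hc : Continuous (fun x : TT d => (P x).re) := by fun_prop
    have hmem : MemLp (fun x : TT d => (P x).re) (ENNReal.ofReal p) volume :=
      hc.memLp_of_hasCompactSupport (HasCompactSupport.of_compactSpace _)
    have hp0' : ENNReal.ofReal p ≠ 0 := by
      rw [Ne, ENNReal.ofReal_eq_zero, not_le]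
      exact hp0
    rw [hmem.eLpNorm_eq_integral_rpow_norm hp0' ENNReal.ofReal_ne_top,
      ENNReal.toReal_ofReal hp0.le, ENNReal.ofReal_le_one]
    have h1 : ∀ x : TT d, ‖(P x).re‖ ^ p = (1 / D) ^ p * ‖tp (Ul d n) cc x‖ ^ p := by
      intro x
      have h2 : P x = ((1 / D : ℝ) : ℂ) * tp (Ul d n) cc x := by
        rw [hP, tp_apply, tp_apply, Finset.mul_sum]
        exact Finset.sum_congr rfl (fun k _ => by ring)
      have h3 : ‖(P x).re‖ = ‖P x‖ := by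
        have h4 : P x = (((P x).re : ℝ) : ℂ) := by
          apply Complex.ext
          · simp
          · simpa using hPre x
        rw [h4, Complex.norm_real, Complex.ofReal_re]
      rw [h3, h2, norm_mul, Complex.norm_real, Real.norm_eq_abs, abs_of_pos (by positivity),
        Real.mul_rpow (by positivity) (norm_nonneg _)]
    simp only [h1]
    rw [integral_const_mul]
    have h5 := lay_lp d n p hp1 hp2
    have h6 : (0 : ℝ) ≤ ∫ x : TT d, ‖tp (Ul d n) cc x‖ ^ p :=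
      integral_nonneg (fun x => by positivity)
    have hX : (0 : ℝ) < (4 ^ d + 8 ^ d) * (#(Sl d n) * ((8 : ℝ) ^ n) ^ (p - 1)) := by
      have := Sl_pos hd n
      positivity
    have h7 : (1 / D) ^ p = 1 / ((4 ^ d + 8 ^ d) * (#(Sl d n) * ((8 : ℝ) ^ n) ^ (p - 1))) := by
      rw [Real.div_rpow (by norm_num) hD.le, Real.one_rpow, hDdef]
      unfold DP
      rw [← Real.rpow_mul hX.le, one_div_mul_cancel hp0.ne', Real.rpow_one]
    rw [h7]
    refine Real.rpow_le_one (by positivity) ?_ (by positivity)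
    rw [one_div, inv_mul_le_iff₀ hX, mul_one]
    exact h5
  · intro Lam hLam b W hW
    set α : ℝ := ((4 : ℝ) ^ d * 8 ^ n) ^ (-r) / D with hα
    have hα0 : 0 < α := by positivity
    have h1 := energy_lower (Ul d n) (Cl d n) (Cl_sub d n)
      (fun k => crp r k * (((1 / D : ℝ) : ℂ) * cc k)) α hα0.le (by
        intro k hk
        rw [cc_Cl hk, mul_one, norm_mul, Complex.norm_real, Real.norm_eq_abs,
          abs_of_pos (by positivity), hα, div_eq_mul_one_div]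
        exact mul_le_mul_of_nonneg_right (crp_core r hr n k hk) (by positivity)) Lam b W hW
    have hW0 : 0 ≤ W := (norm_nonneg _).trans (hW 0)
    have h2 : (2 : ℝ) * #Lam ≤ #(Sl d n) * (4 ^ d * 8 ^ n) := by exact_mod_cast hLam
    have h3 : (#(Cl d n) : ℝ) = #(Sl d n) * (4 ^ d * 8 ^ n) := by
      rw [Cl_card]
      push_cast
      ring
    rw [h3] at h1
    have h4 : (#(Sl d n) * (4 ^ d * 8 ^ n) / 2 : ℝ) * α ^ 2 ≤ W ^ 2 := by
      refine le_trans ?_ h1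
      refine mul_le_mul_of_nonneg_right ?_ (by positivity)
      linarith
    have h5 : ELB d p r n = Real.sqrt ((#(Sl d n) * (4 ^ d * 8 ^ n) / 2 : ℝ) * α ^ 2) := by
      rw [Real.sqrt_mul (by positivity), Real.sqrt_sq hα0.le, mul_comm]
      rfl
    rw [h5]
    exact Real.sqrt_le_iff.2 ⟨hW0, h4⟩

/-- choice of the level -/
lemma levelP (d : ℕ) (hd : 1 ≤ d) (m : ℕ) (hm : 4 ^ d ≤ m) : ∃ n : ℕ, 1 ≤ n ∧
    2 * m ≤ #(Sl d n) * (4 ^ d * 8 ^ n) ∧ #(Sl d (n - 1)) * (4 ^ d * 8 ^ (n - 1)) < 2 * m := by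
  classical
  have hex : ∃ n : ℕ, 2 * m ≤ #(Sl d n) * (4 ^ d * 8 ^ n) := by
    refine ⟨2 * m, ?_⟩
    have h1 : 1 ≤ #(Sl d (2 * m)) := by
      have := Sl_pos hd (2 * m)
      exact_mod_cast this
    have h2 : 2 * m < 8 ^ (2 * m) := Nat.lt_pow_self (by norm_num)
    have h3 : 1 ≤ 4 ^ d := Nat.one_le_pow _ _ (by norm_num)
    calc 2 * m ≤ 1 * (1 * 8 ^ (2 * m)) := by omega
      _ ≤ _ := Nat.mul_le_mul h1 (Nat.mul_le_mul_right _ h3)
  obtain ⟨n, hn, hmin⟩ : ∃ n, 2 * m ≤ #(Sl d n) * (4 ^ d * 8 ^ n)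
      ∧ ∀ k < n, ¬ 2 * m ≤ #(Sl d k) * (4 ^ d * 8 ^ k) :=
    ⟨Nat.find hex, Nat.find_spec hex, fun k hk => Nat.find_min hex hk⟩
  have hn1 : 1 ≤ n := by
    by_contra hc
    have h0 : n = 0 := by omega
    rw [h0] at hn
    have h1 := Sl_card (d := d) (by omega) 0
    have h2 : #(Sl d 0) * (4 ^ d * 8 ^ 0) ≤ 1 * (4 ^ d * 1) :=
      Nat.mul_le_mul (by simpa using h1) (by simp)
    have h3 : 1 ≤ 4 ^ d := Nat.one_le_pow _ _ (by norm_num)
    omega
  refine ⟨n, hn1, hn, ?_⟩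
  have := hmin (n - 1) (by omega)
  omega

/-- comparison of the two sides -/
lemma compareP (d : ℕ) (hd : 1 ≤ d) (p r : ℝ) (hp1 : 1 ≤ p) (hp2 : p ≤ 2) (hr : 1 / p < r) :
    ∃ c : ℝ, 0 < c ∧ ∀ n m : ℕ, 1 ≤ n → 2 ≤ m → 2 * m ≤ #(Sl d n) * (4 ^ d * 8 ^ n) →
      #(Sl d (n - 1)) * (4 ^ d * 8 ^ (n - 1)) < 2 * m →
      c * (m : ℝ) ^ (-(r - (1 / p - 1 / 2)))
        * (Real.log m) ^ (((d : ℝ) - 1) * (r - 2 * (1 / p - 1 / 2))) ≤ ELB d p r n := by
  have hp0 : 0 < p := by linarith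
  have hinv1 : 1 / p ≤ 1 := by
    rw [div_le_one hp0]
    exact hp1
  have hinv2 : 1 / 2 ≤ 1 / p := one_div_le_one_div_of_le hp0 hp2
  set η := 1 / p - 1 / 2 with hη
  have hη0 : 0 ≤ η := by linarith
  set a := r - η with ha
  have ha0 : 0 < a := by linarith
  have he0 : 0 ≤ r - 2 * η := by linarith
  have hd0 : (0 : ℝ) < d := by exact_mod_cast hd
  have hd1 : (0 : ℝ) ≤ (d : ℝ) - 1 := by
    have : (1 : ℝ) ≤ d := by exact_mod_cast hd
    linarith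
  set e := ((d : ℝ) - 1) * (r - 2 * η) with he
  have hee : 0 ≤ e := mul_nonneg hd1 he0
  have hdc : ((d - 1 : ℕ) : ℝ) = (d : ℝ) - 1 := by
    rw [Nat.cast_sub hd]
    simp
  -- constants
  set c1 : ℝ := 4 ^ d / (16 * (d : ℝ) ^ (d - 1)) with hc1
  have hc10 : 0 < c1 := by positivity
  set K : ℝ := 4 * d + 4 with hK
  have hK0 : 0 < K := by positivity
  set X : ℝ := ((4 : ℝ) ^ d) ^ (-r) / ((4 ^ d + 8 ^ d : ℝ)) ^ (1 / p) * Real.sqrt (4 ^ d / 2)
    * ((2 : ℝ) ^ (d - 1)) ^ (-η) with hX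
  have hX0 : 0 < X := by positivity
  refine ⟨X / (c1 ^ (-a) * K ^ e), by positivity, ?_⟩
  intro n m hn hm h1 h2
  have hn0 : (0 : ℝ) < n := by exact_mod_cast hn
  have hn1 : (1 : ℝ) ≤ n := by exact_mod_cast hn
  have hm0 : (0 : ℝ) < m := by
    have : 0 < m := by omega
    exact_mod_cast this
  have hE : (0 : ℝ) < 8 ^ n := by positivity
  -- lower bound for m
  have hmlow : c1 * ((n : ℝ) ^ ((d : ℝ) - 1) * 8 ^ n) ≤ m := by
    have e1 : ((n - 1) / d + 1) ^ (d - 1) * (4 ^ d * 8 ^ (n - 1)) ≤ 2 * m :=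
      (Nat.mul_le_mul_right _ (Sl_lower hd (n - 1))).trans h2.le
    have e2 : (n : ℝ) / d ≤ (((n - 1) / d + 1 : ℕ) : ℝ) := by
      rw [div_le_iff₀ hd0]
      have e3 : n ≤ ((n - 1) / d + 1) * d := by
        have := Nat.lt_div_mul_add (a := n - 1) (b := d) (by omega)
        rw [Nat.add_mul, one_mul]
        omega
      exact_mod_cast e3
    have e4 : ((n : ℝ) / d) ^ (d - 1) * (4 ^ d * 8 ^ (n - 1)) ≤ 2 * m := by
      have e5 : ((((n - 1) / d + 1 : ℕ) : ℝ)) ^ (d - 1) * (4 ^ d * 8 ^ (n - 1)) ≤ 2 * m := by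
        exact_mod_cast e1
      refine le_trans ?_ e5
      gcongr
    have e6 : (8 : ℝ) ^ n = 8 ^ (n - 1) * 8 := by
      rw [← pow_succ]
      congr 1
      omega
    have e7 : (n : ℝ) ^ ((d : ℝ) - 1) = (n : ℝ) ^ (d - 1) := by
      rw [← hdc, Real.rpow_natCast]
    rw [div_pow] at e4
    rw [e7, e6, hc1]
    have e8 : (4 : ℝ) ^ d / (16 * (d : ℝ) ^ (d - 1)) * ((n : ℝ) ^ (d - 1) * (8 ^ (n - 1) * 8))
        = ((n : ℝ) ^ (d - 1) / (d : ℝ) ^ (d - 1) * (4 ^ d * 8 ^ (n - 1))) / 2 := by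
      field_simp
      ring
    rw [e8]
    linarith
  -- upper bound for log m
  have hlog : Real.log m ≤ K * n := by
    have e1 : m ≤ (n + 1) ^ (d - 1) * (4 ^ d * 8 ^ n) := by
      have e2 := Nat.mul_le_mul_right (4 ^ d * 8 ^ n) (Sl_card (d := d) (by omega) n)
      omega
    have e2 : (m : ℝ) ≤ ((n : ℝ) + 1) ^ (d - 1) * (4 ^ d * 8 ^ n) := by exact_mod_cast e1
    have e3 := Real.log_le_log hm0 e2
    rw [Real.log_mul (by positivity) (by positivity), Real.log_mul (by positivity) (by positivity),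
      Real.log_pow, Real.log_pow, Real.log_pow] at e3
    have e4 : Real.log ((n : ℝ) + 1) ≤ n := by
      have := Real.log_le_sub_one_of_pos (show 0 < (n : ℝ) + 1 by linarith)
      linarith
    have e5 : Real.log 4 ≤ 2 := by
      rw [show (4 : ℝ) = 2 ^ 2 by norm_num, Real.log_pow]
      push_cast
      have := Real.log_two_lt_d9
      linarith
    have e6 : Real.log 8 ≤ 3 := by
      rw [show (8 : ℝ) = 2 ^ 3 by norm_num, Real.log_pow]
      push_cast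
      have := Real.log_two_lt_d9
      linarith
    have e8 : 0 ≤ Real.log ((n : ℝ) + 1) := Real.log_nonneg (by linarith)
    have e9 : (((d - 1 : ℕ)) : ℝ) * Real.log ((n : ℝ) + 1) ≤ d * n := by
      rw [hdc]
      exact mul_le_mul (by linarith) e4 e8 hd0.le
    have e10 : (d : ℝ) * Real.log 4 ≤ 2 * d * n := by
      have : (d : ℝ) * Real.log 4 ≤ d * 2 := mul_le_mul_of_nonneg_left e5 hd0.le
      nlinarith [mul_pos hd0 hn0]
    have e11 : (n : ℝ) * Real.log 8 ≤ n * 3 := mul_le_mul_of_nonneg_left e6 hn0.le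
    have e12 : K * n = 4 * d * n + 4 * n := by rw [hK]; ring
    rw [e12]
    nlinarith [mul_pos hd0 hn0]
  have hlog0 : 0 ≤ Real.log m := Real.log_nonneg (by
    have : 1 ≤ m := by omega
    exact_mod_cast this)
  -- the left side
  have hmr : (m : ℝ) ^ (-a) ≤ c1 ^ (-a) * ((n : ℝ) ^ (-(((d : ℝ) - 1) * a)) * ((8 : ℝ) ^ n) ^ (-a))
      := by
    have e1 := Real.rpow_le_rpow_of_nonpos (z := -a)
      (show 0 < c1 * ((n : ℝ) ^ ((d : ℝ) - 1) * 8 ^ n) by positivity) hmlow (by linarith)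
    refine e1.trans (le_of_eq ?_)
    rw [Real.mul_rpow hc10.le (by positivity), Real.mul_rpow (by positivity) hE.le,
      ← Real.rpow_mul hn0.le]
    congr 3
    ring
  have hls : (Real.log m) ^ e ≤ K ^ e * (n : ℝ) ^ e := by
    rw [← Real.mul_rpow hK0.le hn0.le]
    exact Real.rpow_le_rpow hlog0 hlog hee
  have hleft : (m : ℝ) ^ (-a) * (Real.log m) ^ e
      ≤ c1 ^ (-a) * K ^ e * (((8 : ℝ) ^ n) ^ (-a) * (n : ℝ) ^ (-(((d : ℝ) - 1) * η))) := by
    refine (mul_le_mul hmr hls (Real.rpow_nonneg hlog0 _) (by positivity)).trans (le_of_eq ?_)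
    have e1 : (n : ℝ) ^ (-(((d : ℝ) - 1) * a)) * (n : ℝ) ^ e
        = (n : ℝ) ^ (-(((d : ℝ) - 1) * η)) := by
      rw [← Real.rpow_add hn0]
      congr 1
      rw [he, ha]
      ring
    calc c1 ^ (-a) * ((n : ℝ) ^ (-(((d : ℝ) - 1) * a)) * ((8 : ℝ) ^ n) ^ (-a)) * (K ^ e * (n : ℝ) ^ e)
        = c1 ^ (-a) * K ^ e * (((8 : ℝ) ^ n) ^ (-a)
          * ((n : ℝ) ^ (-(((d : ℝ) - 1) * a)) * (n : ℝ) ^ e)) := by ring
      _ = _ := by rw [e1]
  -- the right side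
  set M : ℝ := ((#(Sl d n) : ℕ) : ℝ) with hM
  have hM1 : 1 ≤ M := Sl_pos hd n
  have hM0 : 0 < M := by linarith
  have hMle : M ≤ 2 ^ (d - 1) * (n : ℝ) ^ (d - 1) := by
    have e1 : M ≤ ((n : ℝ) + 1) ^ (d - 1) := by
      rw [hM]
      exact_mod_cast Sl_card (d := d) (by omega) n
    refine e1.trans ?_
    rw [← mul_pow]
    exact pow_le_pow_left₀ (by positivity) (by linarith) _
  have hright : X * (((8 : ℝ) ^ n) ^ (-a) * (n : ℝ) ^ (-(((d : ℝ) - 1) * η))) ≤ ELB d p r n := by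
    have e1 : (n : ℝ) ^ (-(((d : ℝ) - 1) * η)) = ((n : ℝ) ^ (d - 1)) ^ (-η) := by
      rw [← Real.rpow_natCast (n : ℝ) (d - 1), hdc, ← Real.rpow_mul hn0.le]
      congr 1
      ring
    have e2 : ((2 : ℝ) ^ (d - 1)) ^ (-η) * ((n : ℝ) ^ (d - 1)) ^ (-η) ≤ M ^ (-η) := by
      rw [← Real.mul_rpow (by positivity) (by positivity)]
      exact Real.rpow_le_rpow_of_nonpos hM0 hMle (by linarith)
    have e3 : ELB d p r n = ((4 : ℝ) ^ d) ^ (-r) / ((4 ^ d + 8 ^ d : ℝ)) ^ (1 / p)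
        * Real.sqrt (4 ^ d / 2) * (((8 : ℝ) ^ n) ^ (-a) * M ^ (-η)) := by
      unfold ELB DP
      rw [← hM]
      have f1 : Real.sqrt (M * (4 ^ d * 8 ^ n) / 2)
          = Real.sqrt (4 ^ d / 2) * (M ^ (1 / 2 : ℝ) * ((8 : ℝ) ^ n) ^ (1 / 2 : ℝ)) := by
        rw [← Real.sqrt_eq_rpow, ← Real.sqrt_eq_rpow, ← Real.sqrt_mul hM0.le,
          ← Real.sqrt_mul (by positivity)]
        congr 1
        ring
      have f2 : ((4 ^ d + 8 ^ d) * (M * ((8 : ℝ) ^ n) ^ (p - 1))) ^ (1 / p)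
          = ((4 ^ d + 8 ^ d : ℝ)) ^ (1 / p) * (M ^ (1 / p) * ((8 : ℝ) ^ n) ^ (1 - 1 / p)) := by
        rw [Real.mul_rpow (by positivity) (by positivity), Real.mul_rpow hM0.le (by positivity),
          ← Real.rpow_mul hE.le]
        congr 3
        field_simp
      have f3 : ((4 : ℝ) ^ d * 8 ^ n) ^ (-r) = ((4 : ℝ) ^ d) ^ (-r) * ((8 : ℝ) ^ n) ^ (-r) :=
        Real.mul_rpow (by positivity) (by positivity)
      rw [f1, f2, f3]
      have f4 : M ^ (-η) = M ^ (1 / 2 : ℝ) / M ^ (1 / p) := by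
        rw [← Real.rpow_sub hM0]
        congr 1
        rw [hη]
        ring
      have f5 : ((8 : ℝ) ^ n) ^ (-a) = ((8 : ℝ) ^ n) ^ (-r) * ((8 : ℝ) ^ n) ^ (1 / 2 : ℝ)
          / ((8 : ℝ) ^ n) ^ (1 - 1 / p) := by
        rw [← Real.rpow_add hE, ← Real.rpow_sub hE]
        congr 1
        rw [ha, hη]
        ring
      rw [f4, f5]
      field_simp
    rw [e3, e1, hX]
    have e4 : 0 ≤ ((4 : ℝ) ^ d) ^ (-r) / ((4 ^ d + 8 ^ d : ℝ)) ^ (1 / p)
        * Real.sqrt (4 ^ d / 2) * ((8 : ℝ) ^ n) ^ (-a) := by positivity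
    calc ((4 : ℝ) ^ d) ^ (-r) / ((4 ^ d + 8 ^ d : ℝ)) ^ (1 / p) * Real.sqrt (4 ^ d / 2)
          * ((2 : ℝ) ^ (d - 1)) ^ (-η) * (((8 : ℝ) ^ n) ^ (-a) * ((n : ℝ) ^ (d - 1)) ^ (-η))
        = (((4 : ℝ) ^ d) ^ (-r) / ((4 ^ d + 8 ^ d : ℝ)) ^ (1 / p)
        * Real.sqrt (4 ^ d / 2) * ((8 : ℝ) ^ n) ^ (-a))
          * (((2 : ℝ) ^ (d - 1)) ^ (-η) * ((n : ℝ) ^ (d - 1)) ^ (-η)) := by ring
      _ ≤ (((4 : ℝ) ^ d) ^ (-r) / ((4 ^ d + 8 ^ d : ℝ)) ^ (1 / p)
        * Real.sqrt (4 ^ d / 2) * ((8 : ℝ) ^ n) ^ (-a)) * M ^ (-η) :=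
          mul_le_mul_of_nonneg_left e2 e4
      _ = _ := by ring
  refine le_trans ?_ hright
  have hden : 0 < c1 ^ (-a) * K ^ e := by positivity
  rw [mul_assoc]
  calc X / (c1 ^ (-a) * K ^ e) * ((m : ℝ) ^ (-a) * (Real.log m) ^ e)
      ≤ X / (c1 ^ (-a) * K ^ e) * (c1 ^ (-a) * K ^ e
        * (((8 : ℝ) ^ n) ^ (-a) * (n : ℝ) ^ (-(((d : ℝ) - 1) * η)))) :=
        mul_le_mul_of_nonneg_left hleft (by positivity)
    _ = _ := by
        field_simp

/-- the lower bound for `1 ≤ p ≤ 2` -/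
theorem lowP (d : ℕ) (hd : 1 ≤ d) (p r : ℝ) (hp1 : 1 ≤ p) (hp2 : p ≤ 2) (hr : 1 / p < r) :
    ∃ c : ℝ, 0 < c ∧ ∀ᶠ m : ℕ in atTop,
    ∃ F P : C(TT d, ℂ), (∀ x, (F x).im = 0) ∧ (∀ x, (P x).im = 0) ∧
      (∀ k, mFourierCoeff F k = (∏ i, cr r (k i)) * mFourierCoeff P k) ∧
      eLpNorm (fun x : TT d => (P x).re) (ENNReal.ofReal p) volume ≤ 1 ∧
      ∀ (Lam : Finset (Fin d → ℤ)), #Lam ≤ m →
        ∀ (b : (Fin d → ℤ) → ℂ) (W : ℝ), (∀ x, ‖F x - ∑ k ∈ Lam, b k * mFourier k x‖ ≤ W) →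
        c * (m : ℝ) ^ (-(r - (1 / p - 1 / 2)))
          * (Real.log m) ^ (((d : ℝ) - 1) * (r - 2 * (1 / p - 1 / 2))) ≤ W := by
  have hr0 : 0 < r := by
    have : 0 < 1 / p := by positivity
    linarith
  obtain ⟨c, hc, hcomp⟩ := compareP d hd p r hp1 hp2 hr
  refine ⟨c, hc, ?_⟩
  filter_upwards [eventually_ge_atTop (max (4 ^ d) 2)] with m hm
  obtain ⟨n, hn, h1, h2⟩ := levelP d hd m ((le_max_left _ _).trans hm)
  obtain ⟨F, P, hF, hP, hco, hnorm, hlow⟩ := constructP d hd p r hp1 hp2 hr0 n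
  refine ⟨F, P, hF, hP, hco, hnorm, ?_⟩
  intro Lam hLam b W hW
  exact (hcomp n m hn ((le_max_right _ _).trans hm) h1 h2).trans
    (hlow Lam ((Nat.mul_le_mul_left 2 hLam).trans h1) b W hW)

/-- from continuous approximation to the essential supremum -/
lemma ess_lower (F : C(TT d, ℂ)) (Lam : Finset (Fin d → ℤ)) (b : (Fin d → ℤ) → ℂ) (E : ℝ)
    (h : ∀ W : ℝ, (∀ x, ‖F x - ∑ k ∈ Lam, b k * mFourier k x‖ ≤ W) → E ≤ W) :
    ENNReal.ofReal E ≤ eLpNorm (fun x : TT d => F x - ∑ k ∈ Lam, b k * mFourier k x) ⊤ volume := by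
  by_cases hfin : eLpNorm (fun x : TT d => F x - ∑ k ∈ Lam, b k * mFourier k x) ⊤ volume = ⊤
  · rw [hfin]
    exact le_top
  · have hcont : Continuous (fun x : TT d => F x - ∑ k ∈ Lam, b k * mFourier k x) := by fun_prop
    exact ENNReal.ofReal_le_of_le_toReal
      (h _ (fun x => Pool.Agent.H75.MX.le_essSup _ hcont hfin x))

end

end Pool.Agent.H73.KH
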