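import Pool.Agent.H75.UB.Cmp

set_option autoImplicit false
set_option linter.unusedSectionVars false

/-! The classes with `p ≥ 2`: energies, and passage from partial sums to the functions. -/

open Finset ComplexConjugate MeasureTheory UnitAddTorus Filter

open scoped Topology NNReal ENNReal

namespace Pool.Agent.H73.KH

open Pool.Agent.H75.UB

noncomputable section

local instance ms_u2 : MeasureSpace UnitAddCircle := ⟨AddCircle.haarAddCircle⟩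

local instance ha_u2 : Measure.IsAddHaarMeasure (volume : Measure UnitAddCircle) :=
  inferInstanceAs (Measure.IsAddHaarMeasure AddCircle.haarAddCircle)

local instance pr_u2 : IsProbabilityMeasure (volume : Measure UnitAddCircle) :=
  inferInstanceAs (IsProbabilityMeasure AddCircle.haarAddCircle)

variable {d : ℕ}

/-- Bessel's inequality -/
lemma bessel2 (φ : TT d → ℂ) (hφ : MemLp φ 2 volume) (h1 : eLpNorm φ 2 volume ≤ 1)
    (S : Finset (Fin d → ℤ)) : ∑ k ∈ S, ‖cf φ k‖ ^ 2 ≤ 1 := by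
  set f := hφ.toLp φ with hf
  have h2 := hasSum_sq_mFourierCoeff f
  have h3 : ∀ k, mFourierCoeff f k = cf φ k := by
    intro k
    unfold cf mFourierCoeff
    refine integral_congr_ae ?_
    filter_upwards [hφ.coeFn_toLp] with x hx
    rw [hx]
  have h4 : ∫ x, ‖f x‖ ^ 2 = ∫ x, ‖φ x‖ ^ 2 := by
    refine integral_congr_ae ?_
    filter_upwards [hφ.coeFn_toLp] with x hx
    rw [hx]
  have h5 : ∫ x, ‖φ x‖ ^ 2 ≤ 1 := by
    have e2 : ENNReal.ofReal 2 = 2 := by simp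
    have := norm_one 2 (by norm_num) φ (by rw [e2]; exact hφ) (by rw [e2]; exact h1)
    simpa using this
  have h6 := sum_le_hasSum S (fun i _ => by positivity) h2
  rw [h4] at h6
  refine le_trans (le_of_eq ?_) (h6.trans h5)
  exact Finset.sum_congr rfl (fun k _ => by rw [h3])

lemma rho_disj (l : ℕ) : Set.PairwiseDisjoint (↑(Sl d l) : Set (Fin d → ℕ)) rho := by
  intro s _ t _ hst
  rw [Function.onFun, Finset.disjoint_left]
  intro k h1 h2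
  exact hst ((mem_rho.1 h1).symm.trans (mem_rho.1 h2))

/-- the energies of a layer, without weights -/
lemma en_two (hd : 0 < d) (φ : TT d → ℂ) (hφ : MemLp φ 2 volume) (h1 : eLpNorm φ 2 volume ≤ 1)
    (l : ℕ) : ∑ s ∈ Sl d l, en (cf φ) s ≤ (((l : ℝ) + 1) ^ (d - 1)) ^ (1 / 2 : ℝ) := by
  rw [← Real.sqrt_eq_rpow]
  refine Real.le_sqrt_of_sq_le ?_
  have h2 : (∑ s ∈ Sl d l, en (cf φ) s) ^ 2 ≤ #(Sl d l) * ∑ s ∈ Sl d l, en (cf φ) s ^ 2 :=
    sq_sum_le_card_mul_sum_sq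
  have h3 : ∑ s ∈ Sl d l, en (cf φ) s ^ 2 ≤ 1 := by
    have := bessel2 φ hφ h1 ((Sl d l).biUnion rho)
    rw [Finset.sum_biUnion (rho_disj l)] at this
    refine le_trans (le_of_eq ?_) this
    exact Finset.sum_congr rfl (fun s _ => en_sq _ _)
  have h4 : (#(Sl d l) : ℝ) ≤ ((l : ℝ) + 1) ^ (d - 1) := by exact_mod_cast Sl_card hd l
  have h5 : (0 : ℝ) ≤ #(Sl d l) := Nat.cast_nonneg _
  have h6 : 0 ≤ ∑ s ∈ Sl d l, en (cf φ) s ^ 2 := Finset.sum_nonneg (fun _ _ => by positivity)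
  nlinarith

/-- the energies of a layer -/
lemma energies2 (hd : 0 < d) (r : ℝ) (hr : 0 < r) (φ : TT d → ℂ) (hφ : MemLp φ 2 volume)
    (h1 : eLpNorm φ 2 volume ≤ 1) (l : ℕ) :
    ∑ s ∈ Sl d l, en (bc r φ) s ≤ Bl d 2 r ((2 ^ r) ^ d) l := by
  have h2 := en_two hd φ hφ h1 l
  calc ∑ s ∈ Sl d l, en (bc r φ) s
      ≤ ∑ s ∈ Sl d l, (2 ^ r) ^ d * ((2 : ℝ) ^ l) ^ (-r) * en (cf φ) s :=
        Finset.sum_le_sum (fun s hs => en_bc r hr l s hs φ)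
    _ = (2 ^ r) ^ d * ((2 : ℝ) ^ l) ^ (-r) * ∑ s ∈ Sl d l, en (cf φ) s := by
        rw [Finset.mul_sum]
    _ ≤ (2 ^ r) ^ d * ((2 : ℝ) ^ l) ^ (-r) * (((l : ℝ) + 1) ^ (d - 1)) ^ (1 / 2 : ℝ) :=
        mul_le_mul_of_nonneg_left h2 (by positivity)
    _ = _ := by
        unfold Bl
        norm_num

lemma CB2 (d : ℕ) (r : ℝ) (hr : 0 < r) : 1 ≤ ((2 : ℝ) ^ r) ^ d :=
  one_le_pow₀ (Real.one_le_rpow (by norm_num) hr.le)

/-- from the partial sums to the functions of the class -/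
lemma close_class (r : ℝ) (f φ : TT d → ℂ) (hf : Integrable f volume)
    (hco : ∀ k : Fin d → ℤ, mFourierCoeff f k = (∏ i, Pool.Agent.H75.MT.cr r (k i)) * mFourierCoeff φ k)
    (hsum : Summable (fun l => ‖ul (bc r φ) l‖)) (lam : Finset (Fin d → ℤ))
    (c : (Fin d → ℤ) → ℂ) (G : (Fin d → ℝ) → ℂ) (E : ℝ)
    (hG : ∀ x, G x = ∑ k ∈ lam, c k * ex k x) (N0 : ℕ)
    (hN0 : ∀ N, N0 ≤ N → ∀ x, ‖Fp (bc r φ) N x - G x‖ ≤ E) :
    eLpNorm (fun x => f x - ∑ k ∈ lam, c k * mFourier k x) ⊤ volume ≤ ENNReal.ofReal E := by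
  obtain ⟨F, hF1, hF2⟩ := series (bc r φ) hsum
  have hfF : f =ᵐ[volume] fun x => F x := by
    have hu : Integrable (fun x => f x - F x) volume := hf.sub (cint F)
    have h0 := ae_zero (fun x => f x - F x) hu (by
      intro k
      have e1 : mFourierCoeff (fun x => f x - F x) k = mFourierCoeff f k - co F k := by
        unfold mFourierCoeff
        rw [co_def, ← integral_sub]
        · congr 1
          funext x
          rw [smul_eq_mul, smul_eq_mul, ContinuousMap.mul_apply]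
          ring
        · simp only [smul_eq_mul]
          exact int_mul _ hf (mFourier (-k))
        · exact cint _
      rw [e1, hco, hF1]
      unfold bc crp cf
      ring)
    filter_upwards [h0] with x hx
    exact sub_eq_zero.1 hx
  have hb : ∀ y : TT d, ‖F y - ∑ k ∈ lam, c k * mFourier k y‖ ≤ E := by
    intro y
    obtain ⟨x, rfl⟩ := exists_real y
    have e1 : ∑ k ∈ lam, c k * mFourier k (fun i => (x i : UnitAddCircle)) = G x := by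
      rw [hG]
      exact Finset.sum_congr rfl (fun k _ => by rw [mF_coe])
    rw [e1]
    have h1 : Tendsto (fun N => ‖Fp (bc r φ) N x - G x‖) atTop (𝓝 ‖F (pt x) - G x‖) :=
      ((hF2 x).sub_const (G x)).norm
    refine le_of_tendsto h1 ?_
    filter_upwards [eventually_ge_atTop N0] with N hN
    exact hN0 N hN x
  have h2 := eLpNorm_le_of_ae_bound (μ := (volume : Measure (TT d))) (p := ⊤)
    (f := fun x => f x - ∑ k ∈ lam, c k * mFourier k x)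
    (C := E) (by
      filter_upwards [hfF] with x hx
      rw [hx]
      exact hb x)
  refine h2.trans (le_of_eq ?_)
  simp

lemma summable2 (hd : 0 < d) (r : ℝ) (hr : 1 / 2 < r) (φ : TT d → ℂ) (hφ : MemLp φ 2 volume)
    (h1 : eLpNorm φ 2 volume ≤ 1) : Summable (fun l => ‖ul (bc r φ) l‖) := by
  have hr0 : 0 < r := by linarith
  have hCB := CB2 d r hr0
  exact Summable.of_nonneg_of_le (fun l => norm_nonneg _)
      (fun l => ul_norm (bc r φ) l _ (Bl_pos d 2 r _ hCB l).le (energies2 hd r hr0 φ hφ h1 l))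
      (al_geo d 2 r (by norm_num) hr _ hCB)

lemma geo_Ico (z : ℝ) (hz0 : 0 < z) (hz1 : z < 1) (a N : ℕ) :
    ∑ l ∈ Finset.Ico a N, z ^ (l - a) ≤ 1 / (1 - z) := by
  have h1z : 0 < 1 - z := by linarith
  rw [Finset.sum_Ico_eq_sum_range]
  have e1 : ∑ k ∈ range (N - a), z ^ (a + k - a) = ∑ k ∈ range (N - a), z ^ k := by
    refine Finset.sum_congr rfl (fun k _ => ?_)
    rw [Nat.add_sub_cancel_left]
  rw [e1, geom_sum_eq (by linarith : z ≠ 1), show (z ^ (N - a) - 1) / (z - 1)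
      = (1 - z ^ (N - a)) / (1 - z) by
        rw [← neg_div_neg_eq]
        congr 1 <;> ring]
  have : 0 ≤ z ^ (N - a) := by positivity
  exact div_le_div_of_nonneg_right (by linarith) h1z.le

/-- the sup norms of the layers beyond `n` -/
lemma al_two (d : ℕ) (r : ℝ) (hr : 1 / 2 < r) : ∃ (K z : ℝ), 0 < K ∧ 0 < z ∧ z < 1 ∧
    z = (2 : ℝ) ^ (-((r - 1 / 2) / 2)) ∧ ∀ n l : ℕ, n ≤ l →
    Real.sqrt (2 ^ (l + d)) * Bl d 2 r ((2 ^ r) ^ d) l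
      ≤ K * ((2 : ℝ) ^ n) ^ (-(r - 1 / 2)) * (((n : ℝ) + 1) ^ (d - 1)) ^ (1 / 2 : ℝ)
        * z ^ (l - n) := by
  set θ := r - 1 / 2 with hθ
  have hθ0 : 0 < θ := by linarith
  have hr0 : 0 < r := by linarith
  set CB : ℝ := (2 ^ r) ^ d with hCB
  have hCB0 : 0 < CB := by positivity
  set y := (2 : ℝ) ^ (θ / 2) with hy
  have hy1 : 1 < y := Real.one_lt_rpow (by norm_num) (by positivity)
  obtain ⟨K, hK0, hK⟩ := poly_exp d y hy1
  set z := (2 : ℝ) ^ (-(θ / 2)) with hz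
  have hz0 : 0 < z := by positivity
  have hz1 : z < 1 := Real.rpow_lt_one_of_one_lt_of_neg (by norm_num) (by linarith)
  refine ⟨2 ^ d * CB * K, z, by positivity, hz0, hz1, rfl, ?_⟩
  intro n l hnl
  obtain ⟨j, rfl⟩ := Nat.exists_eq_add_of_le hnl
  rw [Nat.add_sub_cancel_left]
  unfold Bl
  have hN : (0 : ℝ) < 2 ^ (n + j) := by positivity
  have h1 : Real.sqrt (2 ^ (n + j + d)) ≤ ((2 : ℝ) ^ (n + j)) ^ (1 / 2 : ℝ) * 2 ^ d := by
    rw [pow_add _ (n + j), Real.sqrt_mul hN.le, Real.sqrt_eq_rpow]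
    have e1 : Real.sqrt ((2 : ℝ) ^ d) ≤ 2 ^ d := by
      refine Real.sqrt_le_iff.2 ⟨by positivity, ?_⟩
      have : (1 : ℝ) ≤ 2 ^ d := one_le_pow₀ (by norm_num)
      nlinarith
    gcongr
  have h2 : ((2 : ℝ) ^ (n + j)) ^ (1 / 2 : ℝ) * ((2 : ℝ) ^ (n + j)) ^ (-(r - (1 / 2 - 1 / 2)))
      = ((2 : ℝ) ^ n) ^ (-θ) * ((2 : ℝ) ^ (-θ)) ^ j := by
    rw [← Real.rpow_add hN, ← rpow_pow_swap (-θ) j, ← Real.mul_rpow (by positivity) (by positivity),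
      ← pow_add]
    congr 1
    rw [hθ]
    ring
  have h3 : (((n + j : ℕ) : ℝ) + 1) ^ (d - 1) ≤ ((n : ℝ) + 1) ^ (d - 1) * ((j : ℝ) + 1) ^ (d - 1) := by
    rw [← mul_pow]
    refine pow_le_pow_left₀ (by positivity) ?_ _
    push_cast
    have h0 : (0 : ℝ) ≤ n := Nat.cast_nonneg _
    have h1 : (0 : ℝ) ≤ j := Nat.cast_nonneg _
    nlinarith
  have hj1 : (1 : ℝ) ≤ (j : ℝ) + 1 := by
    have h1 : (0 : ℝ) ≤ j := Nat.cast_nonneg _
    linarith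
  have h4 : ((((n + j : ℕ) : ℝ) + 1) ^ (d - 1)) ^ (1 - 1 / 2 : ℝ)
      ≤ (((n : ℝ) + 1) ^ (d - 1)) ^ (1 / 2 : ℝ) * (K * y ^ j) := by
    have e0 : (1 - 1 / 2 : ℝ) = 1 / 2 := by norm_num
    rw [e0]
    refine (Real.rpow_le_rpow (by positivity) h3 (by norm_num)).trans ?_
    rw [Real.mul_rpow (by positivity) (by positivity)]
    refine mul_le_mul_of_nonneg_left ?_ (by positivity)
    calc (((j : ℝ) + 1) ^ (d - 1)) ^ (1 / 2 : ℝ) ≤ (((j : ℝ) + 1) ^ (d - 1)) ^ (1 : ℝ) :=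
          Real.rpow_le_rpow_of_exponent_le (one_le_pow₀ hj1) (by norm_num)
      _ = ((j : ℝ) + 1) ^ (d - 1) := Real.rpow_one _
      _ ≤ ((j : ℝ) + 1) ^ d := pow_le_pow_right₀ hj1 (by omega)
      _ ≤ _ := hK j
  have h5 : ((2 : ℝ) ^ (-θ)) ^ j * y ^ j = z ^ j := by
    rw [← mul_pow]
    congr 1
    rw [hy, hz, ← Real.rpow_add (by norm_num)]
    congr 1
    ring
  calc Real.sqrt (2 ^ (n + j + d)) * (CB * ((2 : ℝ) ^ (n + j)) ^ (-(r - (1 / 2 - 1 / 2)))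
        * ((((n + j : ℕ) : ℝ) + 1) ^ (d - 1)) ^ (1 - 1 / 2 : ℝ))
      ≤ (((2 : ℝ) ^ (n + j)) ^ (1 / 2 : ℝ) * 2 ^ d)
        * (CB * ((2 : ℝ) ^ (n + j)) ^ (-(r - (1 / 2 - 1 / 2)))
        * ((((n : ℝ) + 1) ^ (d - 1)) ^ (1 / 2 : ℝ) * (K * y ^ j))) := by gcongr
    _ = 2 ^ d * CB * K * (((2 : ℝ) ^ (n + j)) ^ (1 / 2 : ℝ)
        * ((2 : ℝ) ^ (n + j)) ^ (-(r - (1 / 2 - 1 / 2))))
        * (((n : ℝ) + 1) ^ (d - 1)) ^ (1 / 2 : ℝ) * y ^ j := by ring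
    _ = 2 ^ d * CB * K * ((2 : ℝ) ^ n) ^ (-θ) * (((n : ℝ) + 1) ^ (d - 1)) ^ (1 / 2 : ℝ)
        * (((2 : ℝ) ^ (-θ)) ^ j * y ^ j) := by
        rw [h2]
        ring
    _ = _ := by rw [h5]

/-- the tail of the series -/
lemma tail2 (d : ℕ) (hd : 0 < d) (r : ℝ) (hr : 1 / 2 < r) :
    ∃ (C : ℝ), 0 < C ∧ ∀ (φ : TT d → ℂ), MemLp φ 2 volume → eLpNorm φ 2 volume ≤ 1 →
      ∀ n N : ℕ, n ≤ N → ∀ x, ‖Fp (bc r φ) N x - Fp (bc r φ) n x‖
        ≤ C * ((2 : ℝ) ^ (-((r - 1 / 2) / 2))) ^ n := by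
  obtain ⟨K, z, hK, hz0, hz1, hz, h⟩ := al_two d r hr
  have h1z : 0 < 1 - z := by linarith
  have hr0 : 0 < r := by linarith
  refine ⟨K / (1 - z), by positivity, ?_⟩
  intro φ hφ hφ1 n N hN x
  rw [← hz]
  have hdiff : Fp (bc r φ) N x - Fp (bc r φ) n x
      = ∑ l ∈ Finset.Ico n N, ∑ s ∈ Sl d l, fs (bc r φ) s x := by
    unfold Fp
    rw [Finset.sum_Ico_eq_sub _ hN]
  rw [hdiff]
  have hlay : ∀ l, ‖∑ s ∈ Sl d l, fs (bc r φ) s x‖ ≤ K * z ^ l := by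
    intro l
    refine (lay_sup (bc r φ) l _ (energies2 hd r hr0 φ hφ hφ1 l) x).trans ?_
    have := h 0 l (Nat.zero_le _)
    simpa using this
  refine (norm_sum_le _ _).trans ((Finset.sum_le_sum (fun l _ => hlay l)).trans ?_)
  have e1 : ∑ l ∈ Finset.Ico n N, K * z ^ l = K * z ^ n * ∑ l ∈ Finset.Ico n N, z ^ (l - n) := by
    rw [Finset.mul_sum]
    refine Finset.sum_congr rfl (fun l hl => ?_)
    rw [Finset.mem_Ico] at hl
    rw [mul_assoc, ← pow_add, Nat.add_sub_cancel' hl.1]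
  rw [e1]
  have := geo_Ico z hz0 hz1 n N
  calc K * z ^ n * ∑ l ∈ Finset.Ico n N, z ^ (l - n) ≤ K * z ^ n * (1 / (1 - z)) := by gcongr
    _ = _ := by ring

/-- the layers from `n` on are sampled together -/
lemma high2 (d : ℕ) (hd : 0 < d) (r : ℝ) (hr : 1 / 2 < r) (C2 : ℕ) :
    ∃ C : ℝ, 0 < C ∧ ∀ (φ : TT d → ℂ), MemLp φ 2 volume → eLpNorm φ 2 volume ≤ 1 → ∀ n : ℕ,
    ∃ G, TP d ((n + 1) ^ (d - 1) * 2 ^ n) G ∧
      ∀ x, ‖∑ l ∈ Finset.Ico n (C2 * n), ∑ s ∈ Sl d l, fs (bc r φ) s x - G x‖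
        ≤ C * (((2 : ℝ) ^ n) ^ (-r) * ((n : ℝ) + 1) ^ (1 / 2 : ℝ)) := by
  obtain ⟨K, z, hK, hz0, hz1, hz, h⟩ := al_two d r hr
  have h1z : 0 < 1 - z := by linarith
  have hr0 : 0 < r := by linarith
  refine ⟨16 * (K / (1 - z)) * ((2 + d * (5 + d + C2) : ℕ) : ℝ), by positivity, ?_⟩
  intro φ hφ hφ1 n
  set b := bc r φ with hb
  set l1 := C2 * n with hl1
  set T : Finset (Fin d → ℕ) := (Finset.Ico n l1).biUnion (Sl d) with hT
  set M := (n + 1) ^ (d - 1) * 2 ^ n with hM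
  have hM0 : 0 < M := by positivity
  have hdisj : Set.PairwiseDisjoint (↑(Finset.Ico n l1) : Set ℕ) (Sl d) := by
    intro a _ c _ hac
    rw [Function.onFun, Finset.disjoint_left]
    intro s hs hs'
    exact hac ((mem_Sl.1 hs).symm.trans (mem_Sl.1 hs'))
  set Q : ℝ := ((n : ℝ) + 1) ^ (d - 1) with hQ
  have hQ0 : 0 < Q := by positivity
  set A : ℝ := K / (1 - z) * (((2 : ℝ) ^ n) ^ (-(r - 1 / 2)) * Q ^ (1 / 2 : ℝ)) with hA
  have hA0 : 0 ≤ A := by positivity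
  have hAle : ∑ s ∈ T, ∑ k ∈ Box s, ‖eb' b s k‖ ≤ A := by
    rw [hT, Finset.sum_biUnion hdisj]
    have h1 : ∀ l ∈ Finset.Ico n l1, ∑ s ∈ Sl d l, ∑ k ∈ Box s, ‖eb' b s k‖
        ≤ K * ((2 : ℝ) ^ n) ^ (-(r - 1 / 2)) * Q ^ (1 / 2 : ℝ) * z ^ (l - n) := by
      intro l hl
      rw [Finset.mem_Ico] at hl
      exact (lay_l1 b l _ (energies2 hd r hr0 φ hφ hφ1 l)).trans (h n l hl.1)
    refine (Finset.sum_le_sum h1).trans ?_
    rw [← Finset.mul_sum]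
    have := geo_Ico z hz0 hz1 n l1
    calc K * ((2 : ℝ) ^ n) ^ (-(r - 1 / 2)) * Q ^ (1 / 2 : ℝ)
          * ∑ l ∈ Finset.Ico n l1, z ^ (l - n)
        ≤ K * ((2 : ℝ) ^ n) ^ (-(r - 1 / 2)) * Q ^ (1 / 2 : ℝ) * (1 / (1 - z)) := by gcongr
      _ = _ := by
          rw [hA]
          ring
  obtain ⟨G, hG1, hG2⟩ := rest hd T l1 (by
    intro s hs i
    rw [hT, Finset.mem_biUnion] at hs
    obtain ⟨l, hl, hs⟩ := hs
    rw [Finset.mem_Ico] at hl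
    have h1 : s i ≤ ∑ i, s i := Finset.single_le_sum (fun _ _ => Nat.zero_le _) (mem_univ i)
    rw [mem_Sl.1 hs] at h1
    omega) (eb' b) A hAle M hM0 ((2 + d * (5 + d + l1) : ℕ) : ℝ) (by positivity)
    (ell_le d l1 hd)
  refine ⟨G, hG1, fun x => ?_⟩
  have h1 : ∑ l ∈ Finset.Ico n l1, ∑ s ∈ Sl d l, fs b s x
      = ∑ s ∈ T, ∑ k ∈ Box s, eb' b s k * ex k x := by
    rw [hT, Finset.sum_biUnion hdisj]
    refine Finset.sum_congr rfl (fun l _ => Finset.sum_congr rfl (fun s _ => fs_eb b s x))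
  rw [h1]
  refine (hG2 x).trans ?_
  set X : ℝ := ((2 + d * (5 + d + C2) : ℕ) : ℝ) with hX
  have hX1 : 1 ≤ X := by
    rw [hX]
    have : 1 ≤ 2 + d * (5 + d + C2) := by omega
    exact_mod_cast this
  have hsq : Real.sqrt (((2 + d * (5 + d + l1) : ℕ) : ℝ) / M)
      ≤ X * (((n : ℝ) + 1) ^ (1 / 2 : ℝ) * (((2 : ℝ) ^ n) ^ (-(1 / 2) : ℝ) * Q ^ (-(1 / 2) : ℝ))) := by
    have e1 : ((2 + d * (5 + d + l1) : ℕ) : ℝ) ≤ X * ((n : ℝ) + 1) := by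
      have : 2 + d * (5 + d + l1) ≤ (2 + d * (5 + d + C2)) * (n + 1) := by
        have e3 : (2 + d * (5 + d + C2)) * (n + 1)
            = (2 + d * (5 + d + C2 * n)) + (2 * n + d * (5 + d) * n + d * C2) := by ring
        rw [e3, ← hl1]
        exact Nat.le_add_right _ _
      rw [hX]
      exact_mod_cast this
    have e2 : (M : ℝ) = Q * 2 ^ n := by
      rw [hM, hQ]
      push_cast
      ring
    have e3 : ((2 + d * (5 + d + l1) : ℕ) : ℝ) / M ≤ X * ((n : ℝ) + 1) / (Q * 2 ^ n) := by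
      rw [e2]
      gcongr
    refine (Real.sqrt_le_sqrt e3).trans ?_
    rw [Real.sqrt_eq_rpow, Real.div_rpow (by positivity) (by positivity),
      Real.mul_rpow (by positivity) (by positivity), Real.mul_rpow (by positivity) (by positivity),
      Real.rpow_neg (by positivity), Real.rpow_neg hQ0.le]
    have e4 : X ^ (1 / 2 : ℝ) ≤ X := by
      calc X ^ (1 / 2 : ℝ) ≤ X ^ (1 : ℝ) := Real.rpow_le_rpow_of_exponent_le hX1 (by norm_num)
        _ = X := Real.rpow_one _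
    calc X ^ (1 / 2 : ℝ) * ((n : ℝ) + 1) ^ (1 / 2 : ℝ) / (Q ^ (1 / 2 : ℝ) * (2 ^ n) ^ (1 / 2 : ℝ))
        ≤ X * ((n : ℝ) + 1) ^ (1 / 2 : ℝ) / (Q ^ (1 / 2 : ℝ) * (2 ^ n) ^ (1 / 2 : ℝ)) := by gcongr
      _ = _ := by
          rw [div_eq_mul_inv, mul_inv]
          ring
  have hcomb : ((2 : ℝ) ^ n) ^ (-(r - 1 / 2)) * ((2 : ℝ) ^ n) ^ (-(1 / 2) : ℝ)
      = ((2 : ℝ) ^ n) ^ (-r) := by
    rw [← Real.rpow_add (by positivity)]
    congr 1
    ring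
  have hQc : Q ^ (1 / 2 : ℝ) * Q ^ (-(1 / 2) : ℝ) = 1 := by
    rw [← Real.rpow_add hQ0]
    norm_num
  calc 16 * A * Real.sqrt (((2 + d * (5 + d + l1) : ℕ) : ℝ) / M)
      ≤ 16 * A * (X * (((n : ℝ) + 1) ^ (1 / 2 : ℝ)
        * (((2 : ℝ) ^ n) ^ (-(1 / 2) : ℝ) * Q ^ (-(1 / 2) : ℝ)))) := by gcongr
    _ = 16 * (K / (1 - z)) * X * ((((2 : ℝ) ^ n) ^ (-(r - 1 / 2)) * ((2 : ℝ) ^ n) ^ (-(1 / 2) : ℝ))
        * ((n : ℝ) + 1) ^ (1 / 2 : ℝ)) * (Q ^ (1 / 2 : ℝ) * Q ^ (-(1 / 2) : ℝ)) := by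
        rw [hA]
        ring
    _ = _ := by rw [hcomb, hQc, mul_one]

/-- the exponent for the tail -/
lemma tail_choice (r : ℝ) (hr : 1 / 2 < r) : ∃ C2 : ℕ, 1 ≤ C2 ∧ ∀ n : ℕ,
    ((2 : ℝ) ^ (-((r - 1 / 2) / 2))) ^ (C2 * n) ≤ ((2 : ℝ) ^ n) ^ (-r) := by
  have hθ : 0 < (r - 1 / 2) / 2 := by linarith
  obtain ⟨C2, hC2⟩ := exists_nat_ge (max 1 (r / ((r - 1 / 2) / 2)))
  have h1 := (le_max_left _ _).trans hC2
  have h2 := (le_max_right _ _).trans hC2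
  rw [div_le_iff₀ hθ] at h2
  refine ⟨C2, by exact_mod_cast h1, fun n => ?_⟩
  have e1 : ((2 : ℝ) ^ (-((r - 1 / 2) / 2))) ^ (C2 * n) = ((2 : ℝ) ^ n) ^ (-(C2 * ((r - 1 / 2) / 2))) := by
    rw [pow_mul, rpow_pow_swap (-(C2 * ((r - 1 / 2) / 2))) n]
    congr 1
    rw [← Real.rpow_natCast, ← Real.rpow_mul (by norm_num)]
    congr 1
    ring
  rw [e1]
  exact Real.rpow_le_rpow_of_exponent_le (one_le_pow₀ (by norm_num)) (by linarith)

/-- approximation of a function of the class with a number of terms depending on `n` -/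
theorem class2_n (d : ℕ) (hd : 0 < d) (r : ℝ) (hr : 1 / 2 < r) :
    ∃ C : ℝ, 0 < C ∧ ∀ n : ℕ,
    ∀ f φ : TT d → ℂ, Integrable f volume → MemLp φ 2 volume → eLpNorm φ 2 volume ≤ 1 →
    (∀ k : Fin d → ℤ, mFourierCoeff f k
      = (∏ i, Pool.Agent.H75.MT.cr r (k i)) * mFourierCoeff φ k) →
    ∃ (lam : Finset (Fin d → ℤ)) (c : (Fin d → ℤ) → ℂ),
      lam.card ≤ (2 ^ d + 1) * ((n + 1) ^ (d - 1) * 2 ^ n) ∧
      eLpNorm (fun x => f x - ∑ k ∈ lam, c k * mFourier k x) ⊤ volume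
        ≤ ENNReal.ofReal (C * (((2 : ℝ) ^ n) ^ (-r) * ((n : ℝ) + 1) ^ (1 / 2 : ℝ))) := by
  obtain ⟨C2, hC2, htc⟩ := tail_choice r hr
  obtain ⟨Ct, hCt, htail⟩ := tail2 d hd r hr
  obtain ⟨Ch, hCh, hhigh⟩ := high2 d hd r hr C2
  refine ⟨Ct + Ch, by positivity, ?_⟩
  intro n f φ hf hφ hφ1 hco
  have hsum := summable2 hd r hr φ hφ hφ1
  obtain ⟨G3, hT3, hE3⟩ := hhigh φ hφ hφ1 n
  have hT1 := low_part hd (bc r φ) n
  obtain ⟨lam, c, hlam, hG⟩ := hT1.add hT3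
  refine ⟨lam, c, hlam.trans (le_of_eq (by ring)), ?_⟩
  refine close_class r f φ hf hco hsum lam c _ _ hG (C2 * n) ?_
  intro N hN x
  have e1 : Fp (bc r φ) (C2 * n) x = Fp (bc r φ) n x
      + ∑ l ∈ Finset.Ico n (C2 * n), ∑ s ∈ Sl d l, fs (bc r φ) s x := by
    unfold Fp
    rw [Finset.sum_range_add_sum_Ico (fun l => ∑ s ∈ Sl d l, fs (bc r φ) s x) (by nlinarith)]
  have e2 : Fp (bc r φ) N x - (Fp (bc r φ) n x + G3 x)
      = (Fp (bc r φ) N x - Fp (bc r φ) (C2 * n) x)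
      + (∑ l ∈ Finset.Ico n (C2 * n), ∑ s ∈ Sl d l, fs (bc r φ) s x - G3 x) := by
    rw [e1]
    ring
  rw [e2]
  have f1 := htail φ hφ hφ1 (C2 * n) N hN x
  have f2 := htc n
  have f3 := hE3 x
  have f4 : (1 : ℝ) ≤ ((n : ℝ) + 1) ^ (1 / 2 : ℝ) := by
    refine Real.one_le_rpow ?_ (by norm_num)
    have : (0 : ℝ) ≤ n := Nat.cast_nonneg _
    linarith
  have f5 : (0 : ℝ) < ((2 : ℝ) ^ n) ^ (-r) := by positivity
  have f6 : Ct * ((2 : ℝ) ^ (-((r - 1 / 2) / 2))) ^ (C2 * n)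
      ≤ Ct * (((2 : ℝ) ^ n) ^ (-r) * ((n : ℝ) + 1) ^ (1 / 2 : ℝ)) := by
    refine mul_le_mul_of_nonneg_left (f2.trans ?_) hCt.le
    nlinarith
  refine (norm_add_le _ _).trans ?_
  linarith

end

end Pool.Agent.H73.KH
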