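import Pool.Agent.H73.KH.Up2

set_option autoImplicit false
set_option linter.unusedSectionVars false

/-! The classes with `p ≥ 2`: the upper bound with the square root of the logarithm. -/

open Finset ComplexConjugate MeasureTheory UnitAddTorus Filter

open scoped Topology NNReal ENNReal

namespace Pool.Agent.H73.KH

open Pool.Agent.H75.UB

noncomputable section

local instance ms_u2m : MeasureSpace UnitAddCircle := ⟨AddCircle.haarAddCircle⟩

local instance ha_u2m : Measure.IsAddHaarMeasure (volume : Measure UnitAddCircle) :=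
  inferInstanceAs (Measure.IsAddHaarMeasure AddCircle.haarAddCircle)

local instance pr_u2m : IsProbabilityMeasure (volume : Measure UnitAddCircle) :=
  inferInstanceAs (IsProbabilityMeasure AddCircle.haarAddCircle)

variable {d : ℕ}

/-- the choice of the level -/
lemma choose_gen (Φ : ℕ → ℕ) (hΦ : ∀ n, 2 ^ n ≤ Φ n) (m : ℕ) (hm : Φ 0 ≤ m) :
    ∃ n, Φ n ≤ m ∧ m < Φ (n + 1) := by
  have hex : ∃ n, m < Φ (n + 1) := by
    refine ⟨m, ?_⟩
    have h1 := hΦ (m + 1)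
    have h2 : m + 1 < 2 ^ (m + 1) := Nat.lt_two_pow_self
    omega
  classical
  refine ⟨Nat.find hex, ?_, Nat.find_spec hex⟩
  rcases Nat.eq_zero_or_pos (Nat.find hex) with h | h
  · rw [h]
    exact hm
  · have h3 := Nat.find_min hex (m := Nat.find hex - 1) (by omega)
    push Not at h3
    rwa [Nat.sub_add_cancel (by omega)] at h3

/-- the level is at most the logarithm -/
lemma level_log (n m : ℕ) (h : 2 ^ n ≤ m) : (n : ℝ) ≤ 2 * Real.log m := by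
  have e1 : (2 : ℝ) ^ n ≤ m := by exact_mod_cast h
  have e2 := Real.log_le_log (by positivity) e1
  rw [Real.log_pow] at e2
  have e3 : 1 / 2 < Real.log 2 := by
    have := Real.log_two_gt_d9
    linarith
  have e4 : (0 : ℝ) ≤ n := Nat.cast_nonneg _
  nlinarith

/-- the error in terms of the number of terms -/
lemma err2 (d : ℕ) (hd : 0 < d) (r : ℝ) (hr : 0 < r) (C : ℝ) (hC : 0 < C) (A : ℕ) (hA : 1 ≤ A) :
    ∃ C' : ℝ, 0 < C' ∧ ∀ n m : ℕ, A * ((n + 1) ^ (d - 1) * 2 ^ n) ≤ m →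
      m < A * ((n + 1 + 1) ^ (d - 1) * 2 ^ (n + 1)) → 1 ≤ Real.log m →
      C * (((2 : ℝ) ^ n) ^ (-r) * ((n : ℝ) + 1) ^ (1 / 2 : ℝ))
        ≤ C' * (m : ℝ) ^ (-r) * (Real.log m) ^ (((d : ℝ) - 1) * r + 1 / 2) := by
  have hA0 : (0 : ℝ) < A := by exact_mod_cast hA
  have hd1 : (0 : ℝ) ≤ (d : ℝ) - 1 := by
    have : (1 : ℝ) ≤ d := by exact_mod_cast hd
    linarith
  set K : ℝ := (A : ℝ) * 2 * 2 ^ (d - 1) with hK
  have hK0 : 0 < K := by positivity
  set e : ℝ := ((d : ℝ) - 1) * r + 1 / 2 with he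
  have he0 : 0 < e := by
    have : 0 ≤ ((d : ℝ) - 1) * r := by positivity
    linarith
  refine ⟨C * K ^ r * (3 : ℝ) ^ e, by positivity, ?_⟩
  intro n m h1 h2 hlog1
  have hlog0 : 0 < Real.log m := by linarith
  have h2n : 2 ^ n ≤ m := by
    refine le_trans ?_ h1
    have h3 : 1 ≤ (n + 1) ^ (d - 1) := Nat.one_le_pow _ _ (by omega)
    calc 2 ^ n = 1 * (1 * 2 ^ n) := by ring
      _ ≤ _ := by gcongr
  have hm0 : (0 : ℝ) < m := by
    have : 0 < 2 ^ n := by positivity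
    exact_mod_cast this.trans_le h2n
  set P : ℝ := ((n : ℝ) + 1) ^ (d - 1) with hP
  have hP0 : 0 < P := by positivity
  have h3 : (m : ℝ) ≤ K * P * 2 ^ n := by
    have e1 : A * ((n + 1 + 1) ^ (d - 1) * 2 ^ (n + 1))
        ≤ (A * 2 * 2 ^ (d - 1)) * (n + 1) ^ (d - 1) * 2 ^ n := by
      have h4 : n + 1 + 1 ≤ 2 * (n + 1) := by omega
      calc A * ((n + 1 + 1) ^ (d - 1) * 2 ^ (n + 1))
          ≤ A * ((2 * (n + 1)) ^ (d - 1) * 2 ^ (n + 1)) := by gcongr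
        _ = _ := by
            rw [mul_pow 2 (n + 1) (d - 1), pow_succ 2 n]
            ring
    have e2 : (m : ℝ) ≤ (((A * 2 * 2 ^ (d - 1)) * (n + 1) ^ (d - 1) * 2 ^ n : ℕ) : ℝ) := by
      exact_mod_cast h2.le.trans e1
    push_cast at e2
    exact e2
  have h4 : ((2 : ℝ) ^ n) ^ (-r) ≤ (m : ℝ) ^ (-r) * (K ^ r * P ^ r) := by
    have e1 : (m : ℝ) / (K * P) ≤ 2 ^ n := by
      rw [div_le_iff₀ (by positivity)]
      linarith
    have e2 := Real.rpow_le_rpow_of_nonpos (by positivity) e1 (by linarith : -r ≤ 0)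
    refine e2.trans (le_of_eq ?_)
    rw [Real.div_rpow hm0.le (by positivity), Real.rpow_neg (x := K * P) (by positivity),
      div_inv_eq_mul, Real.mul_rpow hK0.le hP0.le]
  have h5 := level_log n m h2n
  have h6 : P ^ r * ((n : ℝ) + 1) ^ (1 / 2 : ℝ) ≤ (3 : ℝ) ^ e * (Real.log m) ^ e := by
    have hn1 : (0 : ℝ) < (n : ℝ) + 1 := by positivity
    rw [← Real.mul_rpow (by norm_num) hlog0.le, hP, ← Real.rpow_natCast, ← Real.rpow_mul
      hn1.le, Nat.cast_sub hd, Nat.cast_one, ← Real.rpow_add hn1]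
    exact Real.rpow_le_rpow hn1.le (by linarith) he0.le
  have hm' : (0 : ℝ) ≤ (m : ℝ) ^ (-r) := by positivity
  calc C * (((2 : ℝ) ^ n) ^ (-r) * ((n : ℝ) + 1) ^ (1 / 2 : ℝ))
      ≤ C * (((m : ℝ) ^ (-r) * (K ^ r * P ^ r)) * ((n : ℝ) + 1) ^ (1 / 2 : ℝ)) := by gcongr
    _ = C * K ^ r * (m : ℝ) ^ (-r) * (P ^ r * ((n : ℝ) + 1) ^ (1 / 2 : ℝ)) := by ring
    _ ≤ C * K ^ r * (m : ℝ) ^ (-r) * ((3 : ℝ) ^ e * (Real.log m) ^ e) := by gcongr
    _ = _ := by ring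

/-- the upper bound for the classes with `p ≥ 2` -/
theorem upper2 (d : ℕ) (hd : 0 < d) (r : ℝ) (hr : 1 / 2 < r) :
    ∃ C : ℝ, 0 < C ∧ ∀ᶠ m : ℕ in atTop,
    ∀ f φ : TT d → ℂ, Integrable f volume → MemLp φ 2 volume → eLpNorm φ 2 volume ≤ 1 →
    (∀ k : Fin d → ℤ, mFourierCoeff f k
      = (∏ i, Pool.Agent.H75.MT.cr r (k i)) * mFourierCoeff φ k) →
    ∃ (lam : Finset (Fin d → ℤ)) (c : (Fin d → ℤ) → ℂ), lam.card ≤ m ∧
      eLpNorm (fun x => f x - ∑ k ∈ lam, c k * mFourier k x) ⊤ volume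
        ≤ ENNReal.ofReal (C * (m : ℝ) ^ (-r) * (Real.log m) ^ (((d : ℝ) - 1) * r + 1 / 2)) := by
  obtain ⟨C, hC, h⟩ := class2_n d hd r hr
  obtain ⟨C', hC', h'⟩ := err2 d hd r (by linarith) C hC (2 ^ d + 1) (Nat.le_add_left _ _)
  refine ⟨C', hC', ?_⟩
  have hl : Tendsto (fun m : ℕ => Real.log m) atTop atTop :=
    Real.tendsto_log_atTop.comp tendsto_natCast_atTop_atTop
  filter_upwards [eventually_ge_atTop (2 ^ d + 1), hl.eventually_ge_atTop 1] with m hm hm2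
  intro f φ hf hφ hφ1 hco
  obtain ⟨n, h1, h2⟩ := choose_gen (fun n => (2 ^ d + 1) * ((n + 1) ^ (d - 1) * 2 ^ n)) (by
    intro n
    have h3 : 1 ≤ (n + 1) ^ (d - 1) := Nat.one_le_pow _ _ (by omega)
    have h4 : 1 ≤ 2 ^ d + 1 := Nat.le_add_left _ _
    calc 2 ^ n = 1 * (1 * 2 ^ n) := by ring
      _ ≤ _ := by gcongr) m (by simpa using hm)
  obtain ⟨lam, c, h3, h4⟩ := h n f φ hf hφ hφ1 hco
  exact ⟨lam, c, h3.trans h1, h4.trans (ENNReal.ofReal_le_ofReal (h' n m h1 h2 hm2))⟩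

end

end Pool.Agent.H73.KH
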