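import Pool.Agent.H73.KH.UpOne
import Pool.Agent.H75.UX.Defs

set_option autoImplicit false
set_option linter.unusedSectionVars false

/-! The classes with `1 < p ≤ 2` in one variable: the upper bound without logarithm. -/

open Finset ComplexConjugate MeasureTheory UnitAddTorus Filter

open scoped Topology NNReal ENNReal

namespace Pool.Agent.H73.KH

open Pool.Agent.H75.UB

noncomputable section

local instance ms_u1p : MeasureSpace UnitAddCircle := ⟨AddCircle.haarAddCircle⟩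

local instance ha_u1p : Measure.IsAddHaarMeasure (volume : Measure UnitAddCircle) :=
  inferInstanceAs (Measure.IsAddHaarMeasure AddCircle.haarAddCircle)

local instance pr_u1p : IsProbabilityMeasure (volume : Measure UnitAddCircle) :=
  inferInstanceAs (IsProbabilityMeasure AddCircle.haarAddCircle)

/-- the layers in the middle range -/
lemma mid_gen (a : ℝ) (q : ℕ) (hq : 0 < q) (hq2 : (1 + 1 / (q : ℝ)) / 2 < a) (CB : ℝ)
    (hCB : 0 < CB) : ∃ C : ℝ, 0 < C ∧ ∀ b : (Fin 1 → ℤ) → ℂ,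
      (∀ l : ℕ, en b (fun _ => l) ≤ CB * ((2 : ℝ) ^ l) ^ (-a)) →
      ∀ n : ℕ, 1 ≤ n → ∃ G, TP 1 (2 * (q * 2 ^ (n + 1))) G ∧
      ∀ x, ‖∑ l ∈ Finset.Ico n (n + q * n), ∑ s ∈ Sl 1 l, fs b s x - G x‖
        ≤ C * ((2 : ℝ) ^ n) ^ (-a) := by
  obtain ⟨K, z, hK0, hz0, hz1, hKz⟩ := lay_err a q hq hq2
  have h1z : 0 < 1 - z := by linarith
  refine ⟨384 * CB * K * (1 / (1 - z)), by positivity, ?_⟩
  intro b hen n hn
  have hl : ∀ j, ∃ G, TP 1 (2 * 2 ^ (n - j / q)) G ∧ (j ∈ range (q * n) →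
      ∀ x, ‖∑ s ∈ Sl 1 (n + j), fs b s x - G x‖
        ≤ 384 * CB * K * ((2 : ℝ) ^ n) ^ (-a) * z ^ j) := by
    intro j
    by_cases hj : j ∈ range (q * n)
    · rw [mem_range] at hj
      have hjn : j / q ≤ n := (Nat.div_lt_of_lt_mul hj).le
      obtain ⟨g, hg1, hg2⟩ := block_one (n + j) (j + j / q) (by omega) (by omega) b
        (CB * ((2 : ℝ) ^ (n + j)) ^ (-a)) (by positivity) (hen (n + j))
      refine ⟨g, ?_, fun _ x => ?_⟩
      · have e1 : n + j - (j + j / q) = n - j / q := by omega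
        rwa [e1] at hg1
      · rw [Sl_one, Finset.sum_singleton]
        refine (hg2 x).trans ?_
        have h2 := hKz n j
        calc 384 * (((j + j / q + 7 : ℕ) : ℝ) + 6) ^ 2 * (Real.sqrt 2) ^ (j + j / q)
              * (CB * ((2 : ℝ) ^ (n + j)) ^ (-a))
            = 384 * CB * ((((j + j / q + 7 : ℕ) : ℝ) + 6) ^ 2 * (Real.sqrt 2) ^ (j + j / q)
              * ((2 : ℝ) ^ (n + j)) ^ (-a)) := by ring
          _ ≤ 384 * CB * (K * ((2 : ℝ) ^ n) ^ (-a) * z ^ j) := by gcongr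
          _ = _ := by ring
    · exact ⟨fun _ => 0, TP_zero 1 _, fun h => absurd h hj⟩
  choose G hG1 hG2 using hl
  refine ⟨fun x => ∑ j ∈ range (q * n), G j x, ?_, ?_⟩
  · have h1 := TP.sum (range (q * n)) (fun j => 2 * 2 ^ (n - j / q)) G (fun j _ => hG1 j)
    refine h1.mono ?_
    rw [← Finset.mul_sum]
    have := cnt q n hq n (by omega)
    omega
  · intro x
    have e1 : ∑ l ∈ Finset.Ico n (n + q * n), ∑ s ∈ Sl 1 l, fs b s x
        = ∑ j ∈ range (q * n), ∑ s ∈ Sl 1 (n + j), fs b s x := by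
      rw [Finset.sum_Ico_eq_sum_range, Nat.add_sub_cancel_left]
    rw [e1, ← Finset.sum_sub_distrib]
    refine (norm_sum_le _ _).trans ((Finset.sum_le_sum (fun j hj => hG2 j hj x)).trans ?_)
    rw [← Finset.mul_sum]
    have h2 : ∑ j ∈ range (q * n), z ^ j ≤ 1 / (1 - z) := by
      have := geo_Ico z hz0 hz1 0 (q * n)
      rw [Finset.range_eq_Ico]
      exact this
    calc 384 * CB * K * ((2 : ℝ) ^ n) ^ (-a) * ∑ j ∈ range (q * n), z ^ j
        ≤ 384 * CB * K * ((2 : ℝ) ^ n) ^ (-a) * (1 / (1 - z)) := by gcongr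
      _ = _ := by ring

/-- the bound of a layer -/
lemma lay_gen (a CB : ℝ) (hCB : 0 < CB) (b : (Fin 1 → ℤ) → ℂ)
    (hen : ∀ l : ℕ, en b (fun _ => l) ≤ CB * ((2 : ℝ) ^ l) ^ (-a)) (l : ℕ) :
    Real.sqrt (2 ^ (l + 1)) * ∑ s ∈ Sl 1 l, en b s ≤ 2 * CB * ((2 : ℝ) ^ (-(a - 1 / 2))) ^ l := by
  rw [Sl_one, Finset.sum_singleton]
  have hN : (0 : ℝ) < 2 ^ l := by positivity
  have h1 : Real.sqrt (2 ^ (l + 1)) ≤ ((2 : ℝ) ^ l) ^ (1 / 2 : ℝ) * 2 := by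
    rw [pow_succ, Real.sqrt_mul hN.le, Real.sqrt_eq_rpow]
    have e1 : Real.sqrt (2 : ℝ) ≤ 2 := by
      refine Real.sqrt_le_iff.2 ⟨by norm_num, by norm_num⟩
    gcongr
  have h2 : ((2 : ℝ) ^ l) ^ (1 / 2 : ℝ) * ((2 : ℝ) ^ l) ^ (-a) = ((2 : ℝ) ^ (-(a - 1 / 2))) ^ l := by
    rw [← Real.rpow_add hN, ← rpow_pow_swap (-(a - 1 / 2)) l]
    congr 1
    ring
  have h3 := hen l
  calc Real.sqrt (2 ^ (l + 1)) * en b (fun _ => l)
      ≤ (((2 : ℝ) ^ l) ^ (1 / 2 : ℝ) * 2) * (CB * ((2 : ℝ) ^ l) ^ (-a)) :=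
        mul_le_mul h1 h3 (en_nonneg _ _) (by positivity)
    _ = 2 * CB * (((2 : ℝ) ^ l) ^ (1 / 2 : ℝ) * ((2 : ℝ) ^ l) ^ (-a)) := by ring
    _ = _ := by rw [h2]

/-- the tail of the series -/
lemma tail_gen (a : ℝ) (ha : 1 / 2 < a) (CB : ℝ) (hCB : 0 < CB) :
    ∃ C : ℝ, 0 < C ∧ ∀ b : (Fin 1 → ℤ) → ℂ,
      (∀ l : ℕ, en b (fun _ => l) ≤ CB * ((2 : ℝ) ^ l) ^ (-a)) →
      ∀ n N : ℕ, n ≤ N → ∀ x, ‖Fp b N x - Fp b n x‖ ≤ C * ((2 : ℝ) ^ (-(a - 1 / 2))) ^ n := by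
  set z := (2 : ℝ) ^ (-(a - 1 / 2)) with hz
  have hz0 : 0 < z := by positivity
  have hz1 : z < 1 := Real.rpow_lt_one_of_one_lt_of_neg (by norm_num) (by linarith)
  have h1z : 0 < 1 - z := by linarith
  refine ⟨2 * CB / (1 - z), by positivity, ?_⟩
  intro b hen n N hN x
  have hdiff : Fp b N x - Fp b n x = ∑ l ∈ Finset.Ico n N, ∑ s ∈ Sl 1 l, fs b s x := by
    unfold Fp
    rw [Finset.sum_Ico_eq_sub _ hN]
  rw [hdiff]
  have hlay : ∀ l, ‖∑ s ∈ Sl 1 l, fs b s x‖ ≤ 2 * CB * z ^ l := by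
    intro l
    exact (lay_sup b l _ le_rfl x).trans (lay_gen a CB hCB b hen l)
  refine (norm_sum_le _ _).trans ((Finset.sum_le_sum (fun l _ => hlay l)).trans ?_)
  have e1 : ∑ l ∈ Finset.Ico n N, 2 * CB * z ^ l
      = 2 * CB * z ^ n * ∑ l ∈ Finset.Ico n N, z ^ (l - n) := by
    rw [Finset.mul_sum]
    refine Finset.sum_congr rfl (fun l hl => ?_)
    rw [Finset.mem_Ico] at hl
    rw [mul_assoc (2 * CB), ← pow_add, Nat.add_sub_cancel' hl.1]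
  rw [e1]
  have := geo_Ico z hz0 hz1 n N
  calc 2 * CB * z ^ n * ∑ l ∈ Finset.Ico n N, z ^ (l - n) ≤ 2 * CB * z ^ n * (1 / (1 - z)) := by
        gcongr
    _ = _ := by ring

lemma summable_gen (a : ℝ) (ha : 1 / 2 < a) (CB : ℝ) (hCB : 0 < CB) (b : (Fin 1 → ℤ) → ℂ)
    (hen : ∀ l : ℕ, en b (fun _ => l) ≤ CB * ((2 : ℝ) ^ l) ^ (-a)) :
    Summable (fun l => ‖ul b l‖) := by
  have hz1 : (2 : ℝ) ^ (-(a - 1 / 2)) < 1 :=
    Real.rpow_lt_one_of_one_lt_of_neg (by norm_num) (by linarith)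
  refine Summable.of_nonneg_of_le (fun l => norm_nonneg _) (fun l => ?_)
    ((summable_geometric_of_lt_one (by positivity) hz1).mul_left (2 * CB))
  refine (ul_norm b l _ ?_ le_rfl).trans (lay_gen a CB hCB b hen l)
  exact Finset.sum_nonneg (fun s _ => en_nonneg b s)

/-- approximation with a number of terms depending on `n` -/
theorem gen_one (a : ℝ) (ha : 1 / 2 < a) (CB : ℝ) (hCB : 0 < CB) :
    ∃ (C : ℝ) (CN : ℕ), 0 < C ∧ 1 ≤ CN ∧ ∀ n : ℕ, 1 ≤ n →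
    ∀ (r : ℝ) (f φ : TT 1 → ℂ), Integrable f volume →
    (∀ k : Fin 1 → ℤ, mFourierCoeff f k
      = (∏ i, Pool.Agent.H75.MT.cr r (k i)) * mFourierCoeff φ k) →
    (∀ l : ℕ, en (bc r φ) (fun _ => l) ≤ CB * ((2 : ℝ) ^ l) ^ (-a)) →
    ∃ (lam : Finset (Fin 1 → ℤ)) (c : (Fin 1 → ℤ) → ℂ), lam.card ≤ CN * 2 ^ n ∧
      eLpNorm (fun x => f x - ∑ k ∈ lam, c k * mFourier k x) ⊤ volume
        ≤ ENNReal.ofReal (C * ((2 : ℝ) ^ n) ^ (-a)) := by
  obtain ⟨Ct, hCt, htail⟩ := tail_gen a ha CB hCB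
  have hθ : 0 < a - 1 / 2 := by linarith
  obtain ⟨q, hq0⟩ := exists_nat_gt (max (1 / (2 * a - 1)) (a / (a - 1 / 2)))
  have hqa : 1 / (2 * a - 1) < (q : ℝ) := (le_max_left _ _).trans_lt hq0
  have hqb : a / (a - 1 / 2) < (q : ℝ) := (le_max_right _ _).trans_lt hq0
  have hqr : (0 : ℝ) < q := lt_trans (by positivity) hqb
  have hq : 0 < q := by exact_mod_cast hqr
  have hq2 : (1 + 1 / (q : ℝ)) / 2 < a := by
    have h2 : 0 < 2 * a - 1 := by linarith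
    rw [div_lt_iff₀ h2] at hqa
    have h3 : 1 / (q : ℝ) < 2 * a - 1 := by
      rw [div_lt_iff₀ hqr]
      linarith
    linarith
  rw [div_lt_iff₀ hθ] at hqb
  obtain ⟨Ch, hCh, hmid⟩ := mid_gen a q hq hq2 CB hCB
  refine ⟨Ct + Ch, 2 + 4 * q, by positivity, by omega, ?_⟩
  intro n hn r f φ hf hco hen
  have hsum := summable_gen a ha CB hCB (bc r φ) hen
  obtain ⟨G3, hT3, hE3⟩ := hmid (bc r φ) hen n hn
  have hT1 := low_part (d := 1) (by norm_num) (bc r φ) n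
  obtain ⟨lam, c, hlam, hG⟩ := hT1.add hT3
  refine ⟨lam, c, hlam.trans (le_of_eq ?_), ?_⟩
  · simp only [Nat.sub_self, pow_zero, one_mul, pow_succ]
    ring
  refine close_class r f φ hf hco hsum lam c _ _ hG (n + q * n) ?_
  intro N hN x
  have e1 : Fp (bc r φ) (n + q * n) x = Fp (bc r φ) n x
      + ∑ l ∈ Finset.Ico n (n + q * n), ∑ s ∈ Sl 1 l, fs (bc r φ) s x := by
    unfold Fp
    rw [Finset.sum_range_add_sum_Ico (fun l => ∑ s ∈ Sl 1 l, fs (bc r φ) s x) (by omega)]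
  have e2 : Fp (bc r φ) N x - (Fp (bc r φ) n x + G3 x)
      = (Fp (bc r φ) N x - Fp (bc r φ) (n + q * n) x)
      + (∑ l ∈ Finset.Ico n (n + q * n), ∑ s ∈ Sl 1 l, fs (bc r φ) s x - G3 x) := by
    rw [e1]
    ring
  rw [e2]
  have f1 := htail (bc r φ) hen (n + q * n) N hN x
  have f2 : ((2 : ℝ) ^ (-(a - 1 / 2))) ^ (n + q * n) ≤ ((2 : ℝ) ^ n) ^ (-a) := by
    have g1 : ((2 : ℝ) ^ (-(a - 1 / 2))) ^ (n + q * n)
        = ((2 : ℝ) ^ n) ^ (-((q + 1) * (a - 1 / 2))) := by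
      have g2 : n + q * n = (q + 1) * n := by ring
      rw [g2, pow_mul, rpow_pow_swap (-((q + 1) * (a - 1 / 2))) n]
      congr 1
      rw [← Real.rpow_natCast, ← Real.rpow_mul (by norm_num)]
      congr 1
      push_cast
      ring
    rw [g1]
    refine Real.rpow_le_rpow_of_exponent_le (one_le_pow₀ (by norm_num)) ?_
    nlinarith
  have f3 := hE3 x
  have f6 : Ct * ((2 : ℝ) ^ (-(a - 1 / 2))) ^ (n + q * n) ≤ Ct * ((2 : ℝ) ^ n) ^ (-a) :=
    mul_le_mul_of_nonneg_left f2 hCt.le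
  refine (norm_add_le _ _).trans ?_
  linarith

/-- approximation with at most `m` terms -/
theorem gen_one_m (a : ℝ) (ha : 1 / 2 < a) (CB : ℝ) (hCB : 0 < CB) :
    ∃ C : ℝ, 0 < C ∧ ∀ᶠ m : ℕ in atTop,
    ∀ (r : ℝ) (f φ : TT 1 → ℂ), Integrable f volume →
    (∀ k : Fin 1 → ℤ, mFourierCoeff f k
      = (∏ i, Pool.Agent.H75.MT.cr r (k i)) * mFourierCoeff φ k) →
    (∀ l : ℕ, en (bc r φ) (fun _ => l) ≤ CB * ((2 : ℝ) ^ l) ^ (-a)) →
    ∃ (lam : Finset (Fin 1 → ℤ)) (c : (Fin 1 → ℤ) → ℂ), lam.card ≤ m ∧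
      eLpNorm (fun x => f x - ∑ k ∈ lam, c k * mFourier k x) ⊤ volume
        ≤ ENNReal.ofReal (C * (m : ℝ) ^ (-a)) := by
  obtain ⟨C, CN, hC, hCN, h⟩ := gen_one a ha CB hCB
  have hCN0 : (0 : ℝ) < CN := by exact_mod_cast hCN
  refine ⟨C * (2 * CN : ℝ) ^ a, by positivity, ?_⟩
  filter_upwards [eventually_ge_atTop (CN * 2)] with m hm
  intro r f φ hf hco hen
  obtain ⟨n, h1, h2⟩ := choose_gen (fun n => CN * 2 ^ (n + 1)) (by
    intro n
    calc 2 ^ n ≤ 2 ^ (n + 1) := Nat.pow_le_pow_right (by norm_num) (by omega)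
      _ = 1 * 2 ^ (n + 1) := (one_mul _).symm
      _ ≤ _ := Nat.mul_le_mul_right _ hCN) m (by simpa using hm)
  obtain ⟨lam, c, h3, h4⟩ := h (n + 1) (by omega) r f φ hf hco hen
  refine ⟨lam, c, h3.trans h1, h4.trans (ENNReal.ofReal_le_ofReal ?_)⟩
  have hm0 : (0 : ℝ) < m := by
    have : 0 < m := by omega
    exact_mod_cast this
  have e1 : (m : ℝ) / (2 * CN) ≤ 2 ^ (n + 1) := by
    rw [div_le_iff₀ (by positivity)]
    have e2 : (m : ℝ) ≤ ((CN * 2 ^ (n + 1 + 1) : ℕ) : ℝ) := by exact_mod_cast h2.le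
    push_cast at e2
    rw [pow_succ (2 : ℝ) (n + 1)] at e2
    linarith
  have e2 := Real.rpow_le_rpow_of_nonpos (by positivity) e1 (by linarith : -a ≤ 0)
  calc C * ((2 : ℝ) ^ (n + 1)) ^ (-a) ≤ C * ((m : ℝ) / (2 * CN)) ^ (-a) := by gcongr
    _ = _ := by
        rw [Real.div_rpow hm0.le (by positivity), Real.rpow_neg (x := (2 * CN : ℝ)) (by positivity),
          div_inv_eq_mul]
        ring

/-- the energies in one variable -/
lemma en_all (p r : ℝ) (hp1 : 1 < p) (hp2 : p ≤ 2) (hr : 0 < r) : ∃ CB : ℝ, 0 < CB ∧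
    ∀ φ : TT 1 → ℂ, MemLp φ (ENNReal.ofReal p) volume →
      eLpNorm φ (ENNReal.ofReal p) volume ≤ 1 → ∀ l : ℕ,
      en (bc r φ) (fun _ => l) ≤ CB * ((2 : ℝ) ^ l) ^ (-(r - (1 / p - 1 / 2))) := by
  rcases hp2.eq_or_lt with h | h
  · subst h
    refine ⟨(2 ^ r) ^ 1, by positivity, ?_⟩
    intro φ hφ hφ1 l
    have e2 : ENNReal.ofReal 2 = 2 := by simp
    rw [e2] at hφ hφ1
    have h1 := energies2 (d := 1) (by norm_num) r hr φ hφ hφ1 l
    rw [Sl_one, Finset.sum_singleton] at h1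
    refine h1.trans (le_of_eq ?_)
    unfold Bl
    simp only [Nat.sub_self, pow_zero, Real.one_rpow, mul_one]
  · obtain ⟨CB, hCB, hE⟩ := energies_b 1 (by norm_num) p r hp1 h hr
    refine ⟨CB, by linarith, ?_⟩
    intro φ hφ hφ1 l
    have h1 := hE φ hφ (norm_one p (by linarith) φ hφ hφ1) l
    rw [Sl_one, Finset.sum_singleton] at h1
    refine h1.trans (le_of_eq ?_)
    unfold Bl
    simp only [Nat.sub_self, pow_zero, Real.one_rpow, mul_one]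

/-- the upper bound in one variable for the classes with `1 < p ≤ 2` -/
theorem upper1 (p r : ℝ) (hp1 : 1 < p) (hp2 : p ≤ 2) (hr : 1 / p < r) :
    Pool.Agent.H75.UX.UpperSt 1 p r := by
  have hr0 : 0 < r := by
    have : 0 < 1 / p := by positivity
    linarith
  obtain ⟨CB, hCB, hE⟩ := en_all p r hp1 hp2 hr0
  obtain ⟨C, hC, h⟩ := gen_one_m (r - (1 / p - 1 / 2)) (by linarith) CB hCB
  refine ⟨C, hC, ?_⟩
  filter_upwards [h] with m hm
  intro f φ hf hφ hφ1 hco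
  obtain ⟨lam, c, h1, h2⟩ := hm r f φ hf hco (hE φ hφ hφ1)
  refine ⟨lam, c, h1, h2.trans (le_of_eq ?_)⟩
  congr 1
  simp

end

end Pool.Agent.H73.KH
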